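import Pool.Agent.H59.CF.Stm

set_option autoImplicit false

/-!
# Descent: closed flows modulo `s` imply open ones for all graphs only if all bridgeless graphs have
open flows
-/

namespace H59.CF

open Set
open scoped Pointwise

lemma coe_eq_iff {s x y : ℝ} : (x : AddCircle s) = (y : AddCircle s) ↔ ∃ n : ℤ, x - y = n * s := by
  rw [← sub_eq_zero, ← AddCircle.coe_sub, AddCircle.coe_eq_zero_iff]
  constructor
  · rintro ⟨n, hn⟩
    exact ⟨n, by rw [← hn, zsmul_eq_mul]⟩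
  · rintro ⟨n, hn⟩
    exact ⟨n, by rw [hn, zsmul_eq_mul]⟩

lemma eq_of_coe {s x y : ℝ} (h : (x : AddCircle s) = (y : AddCircle s)) (h1 : |x - y| < s) :
    x = y := by
  obtain ⟨n, hn⟩ := coe_eq_iff.1 h
  have hs : 0 < s := lt_of_le_of_lt (abs_nonneg _) h1
  have h2 : |(n : ℝ)| * s < 1 * s := by
    rw [hn, abs_mul, abs_of_pos hs] at h1
    linarith
  have h3 : |(n : ℝ)| < 1 := lt_of_mul_lt_mul_right h2 hs.le
  have h4 : n = 0 := by
    have h5 : |n| < 1 := by exact_mod_cast h3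
    exact Int.abs_lt_one_iff.1 h5
  rw [h4] at hn
  simp only [Int.cast_zero, zero_mul] at hn
  linarith

lemma coe_int_mul {s : ℝ} (n : ℤ) : (((n : ℝ) * s : ℝ) : AddCircle s) = 0 := by
  rw [AddCircle.coe_eq_zero_iff]
  exact ⟨n, by rw [zsmul_eq_mul]⟩

variable {V E : Type} [DecidableEq V] [Fintype E]

lemma sum_dv [Fintype V] (src dst : E → V) (f : E → ℝ) : ∑ v, dv src dst f v = 0 := by
  unfold dv
  rw [Finset.sum_comm]
  refine Finset.sum_eq_zero fun e _ => ?_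
  rw [← Finset.mul_sum, Finset.sum_sub_distrib]
  simp

lemma dv_period_sub (src dst : E → V) (s : ℝ) (f : E → ℝ) (v : V) :
    ((dv src dst (fun e => s - f e) v : ℝ) : AddCircle s) =
      -((dv src dst f v : ℝ) : AddCircle s) := by
  have h : dv src dst (fun e => s - f e) v =
      ((∑ e, ((if src e = v then 1 else 0) - (if dst e = v then 1 else 0) : ℤ) : ℤ) : ℝ) * s -
        dv src dst f v := by
    unfold dv
    push_cast
    rw [Finset.sum_mul, ← Finset.sum_sub_distrib]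
    refine Finset.sum_congr rfl fun e _ => ?_
    ring
  rw [h, AddCircle.coe_sub, coe_int_mul, zero_sub]

lemma cap_congr {W : Net} {s : ℝ} {J : Set ℝ} {x y : ℝ}
    (h : (x : AddCircle s) = (y : AddCircle s)) (hx : x ∈ W.cap s J) : y ∈ W.cap s J := by
  obtain ⟨f, h1, h2, h3⟩ := hx
  exact ⟨f, h1, h2, h3.trans h⟩

lemma cap_neg {W : Net} {s : ℝ} {J : Set ℝ} (hJ : ∀ t ∈ J, s - t ∈ J) {x : ℝ}
    (hx : x ∈ W.cap s J) : -x ∈ W.cap s J := by
  obtain ⟨f, h1, h2, h3⟩ := hx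
  refine ⟨fun e => s - f e, fun e => hJ _ (h1 e), fun v ha hb => ?_, ?_⟩
  · rw [dv_period_sub, h2 v ha hb, neg_zero]
  · rw [dv_period_sub, h3, AddCircle.coe_neg]

lemma cap_mono {W : Net} {s : ℝ} {J J' : Set ℝ} (h : J ⊆ J') : W.cap s J ⊆ W.cap s J' := by
  rintro x ⟨f, h1, h2, h3⟩
  exact ⟨f, fun e => h (h1 e), h2, h3⟩

lemma mflow_iff (W : Net) (s : ℝ) (J : Set ℝ) :
    MFlow s J W.src W.dst ↔ (0 : ℝ) ∈ W.cap s J := by
  constructor
  · rintro ⟨f, h1, h2⟩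
    exact ⟨f, h1, fun v _ _ => h2 v, by rw [h2, AddCircle.coe_zero]⟩
  · rintro ⟨f, h1, h2, h3⟩
    refine ⟨f, h1, fun v => ?_⟩
    by_cases hb : v = W.b
    · have h4 : ((∑ v, dv W.src W.dst f v : ℝ) : AddCircle s) = 0 := by
        rw [sum_dv, AddCircle.coe_zero]
      have h5 : ((∑ v, dv W.src W.dst f v : ℝ) : AddCircle s) =
          ∑ v, ((dv W.src W.dst f v : ℝ) : AddCircle s) := by
        have := map_sum (QuotientAddGroup.mk' (AddSubgroup.zmultiples s))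
          (fun v => dv W.src W.dst f v) Finset.univ
        exact this
      rw [h5, Finset.sum_eq_single W.b] at h4
      · rw [hb]; exact h4
      · intro u _ hu
        by_cases ha : u = W.a
        · rw [ha, h3, AddCircle.coe_zero]
        · exact h2 u ha hu
      · intro h; exact absurd (Finset.mem_univ _) h
    · by_cases ha : v = W.a
      · rw [ha, h3, AddCircle.coe_zero]
      · exact h2 v ha hb

lemma symm_Icc (s : ℝ) : ∀ t ∈ Icc (1 : ℝ) (s - 1), s - t ∈ Icc (1 : ℝ) (s - 1) := by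
  rintro t ⟨h1, h2⟩
  exact ⟨by linarith, by linarith⟩

lemma symm_Ioo (s : ℝ) : ∀ t ∈ Ioo (1 : ℝ) (s - 1), s - t ∈ Ioo (1 : ℝ) (s - 1) := by
  rintro t ⟨h1, h2⟩
  exact ⟨by linarith, by linarith⟩

lemma isOpen_sum {A B : Set ℝ} (hA : IsOpen A) :
    IsOpen {x : ℝ | ∃ x₁ ∈ A, ∃ x₂ ∈ B, x = x₁ + x₂} := by
  have : {x : ℝ | ∃ x₁ ∈ A, ∃ x₂ ∈ B, x = x₁ + x₂} = A + B := by
    ext x
    rw [Set.mem_add]
    constructor
    · rintro ⟨a, ha, b, hb, rfl⟩; exact ⟨a, ha, b, hb, rfl⟩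
    · rintro ⟨a, ha, b, hb, rfl⟩; exact ⟨a, ha, b, hb, rfl⟩
  rw [this]
  exact hA.add_right

/-- one normal edge parallel to `k` copies of `W` -/
lemma chain (hpar : S_par) (hedge : S_edge) (W : Net) (s : ℝ) : ∀ k : ℕ, ∃ Z : Net,
    (∀ (J : Set ℝ) (β : ℝ), (∀ x ∈ W.cap s J, ∃ y : ℝ, |y| ≤ β ∧ (x : AddCircle s) = y) →
      ∀ x ∈ Z.cap s J, ∃ z ∈ J, ∃ w : ℝ, |w| ≤ k * β ∧
        (x : AddCircle s) = ((z + w : ℝ) : AddCircle s)) ∧
    (∀ J : Set ℝ, (∀ t ∈ J, s - t ∈ J) → ∀ z ∈ J, ∀ y ∈ W.cap s J, z - k * y ∈ Z.cap s J) ∧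
    (∀ J : Set ℝ, IsOpen J → IsOpen (W.cap s J) → IsOpen (Z.cap s J)) := by
  intro k
  induction k with
  | zero =>
    obtain ⟨Z, hZ⟩ := hedge
    refine ⟨Z, ?_, ?_, ?_⟩
    · intro J β _ x hx
      rw [hZ] at hx
      obtain ⟨y, hy, h⟩ := hx
      exact ⟨y, hy, 0, by simp, by rw [h, add_zero]⟩
    · intro J _ z hz y _
      rw [hZ]
      exact ⟨z, hz, by simp⟩
    · intro J hJ _
      rw [hZ]
      have : {x : ℝ | ∃ y ∈ J, (x : AddCircle s) = (y : AddCircle s)} =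
          ⋃ n : ℤ, (fun x => x - n * s) ⁻¹' J := by
        ext x
        simp only [Set.mem_ofPred_eq, mem_iUnion, mem_preimage]
        constructor
        · rintro ⟨y, hy, h⟩
          obtain ⟨n, hn⟩ := coe_eq_iff.1 h
          refine ⟨n, ?_⟩
          rw [← hn, sub_sub_cancel]; exact hy
        · rintro ⟨n, hn⟩
          exact ⟨_, hn, coe_eq_iff.2 ⟨n, by ring⟩⟩
      rw [this]
      exact isOpen_iUnion fun n => hJ.preimage (by fun_prop)
  | succ k ih =>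
    obtain ⟨Z, h1, h2, h3⟩ := ih
    obtain ⟨Y, hY⟩ := hpar Z W
    refine ⟨Y, ?_, ?_, ?_⟩
    · intro J β hβ x hx
      rw [hY] at hx
      obtain ⟨x₁, hx₁, x₂, hx₂, rfl⟩ := hx
      obtain ⟨z, hz, w, hw, h4⟩ := h1 J β hβ x₁ hx₁
      obtain ⟨y, hy, h5⟩ := hβ x₂ hx₂
      refine ⟨z, hz, w + y, ?_, ?_⟩
      · have := abs_add_le w y
        push_cast
        linarith
      · rw [AddCircle.coe_add, h4, h5, ← AddCircle.coe_add, add_assoc]
    · intro J hJ z hz y hy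
      rw [hY]
      exact ⟨z - k * y, h2 J hJ z hz y hy, -y, cap_neg hJ hy, by push_cast; ring⟩
    · intro J hJ hW
      rw [hY]
      exact isOpen_sum (h3 J hJ hW)

/-- a network whose closed capacities are bounded by `α` and which has an open capacity `y` with
`1 < (k + 2) y`, where `(k + 1) α < 1`, gives one with the bound `(k + 2) α - 1` -/
lemma step (hpar : S_par) (hser : S_ser) (hedge : S_edge) (W : Net) (s α : ℝ) (hs : 5 ≤ s)
    (hα0 : 0 < α) (hα1 : α < 1) (k : ℕ) (hk1 : (k + 1) * α < 1)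
    (h0 : (0 : ℝ) ∈ W.cap s (Ioo 1 (s - 1))) (hop : IsOpen (W.cap s (Ioo 1 (s - 1))))
    (hc : ∀ x ∈ W.cap s (Icc 1 (s - 1)), ∃ y : ℝ, |y| ≤ α ∧ (x : AddCircle s) = y)
    (y : ℝ) (hy : y ∈ W.cap s (Ioo 1 (s - 1))) (hy0 : |y| ≤ α) (hy1 : 1 < (k + 2) * y) :
    ∃ W' : Net, (0 : ℝ) ∈ W'.cap s (Ioo 1 (s - 1)) ∧ IsOpen (W'.cap s (Ioo 1 (s - 1))) ∧
      ∀ x ∈ W'.cap s (Icc 1 (s - 1)), ∃ y : ℝ, |y| ≤ (k + 2) * α - 1 ∧ (x : AddCircle s) = y := by
  obtain ⟨A, hA⟩ := hpar W W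
  obtain ⟨Z, hZ1, hZ2, hZ3⟩ := chain hpar hedge W s k
  obtain ⟨S, hS⟩ := hser A Z
  obtain ⟨T, hT⟩ := hpar S S
  obtain ⟨W', hW'⟩ := hser W T
  have hyα : y ≤ α := (le_abs_self y).trans hy0
  have hS1 : ∀ x ∈ S.cap s (Icc 1 (s - 1)), ∃ p : ℝ, (x : AddCircle s) = p ∧ |p| ≤ 2 * α ∧
      1 - k * α ≤ |p| := by
    intro x hx
    rw [hS] at hx
    obtain ⟨hxA, hxZ⟩ := hx
    rw [hA] at hxA
    obtain ⟨x₁, h1, x₂, h2, rfl⟩ := hxA
    obtain ⟨y₁, hy1, e1⟩ := hc x₁ h1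
    obtain ⟨y₂, hy2, e2⟩ := hc x₂ h2
    obtain ⟨z, hz, w, hw, e3⟩ := hZ1 _ α hc _ hxZ
    have e4 : ((x₁ + x₂ : ℝ) : AddCircle s) = ((y₁ + y₂ : ℝ) : AddCircle s) := by
      rw [AddCircle.coe_add, e1, e2, AddCircle.coe_add]
    refine ⟨y₁ + y₂, e4, ?_, ?_⟩
    · have := abs_add_le y₁ y₂
      linarith
    · obtain ⟨n, hn⟩ := coe_eq_iff.1 (e4.symm.trans e3)
      have hw' := abs_le.1 hw
      rcases lt_or_ge n 0 with hn0 | hn0
      · have h3 : (n : ℝ) ≤ -1 := by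
          have : n ≤ -1 := by omega
          exact_mod_cast this
        have h4 : (n : ℝ) * s ≤ -1 * s := mul_le_mul_of_nonneg_right h3 (by linarith)
        have h5 := neg_le_abs (y₁ + y₂)
        linarith [hz.2, hw'.2]
      · have h3 : (0 : ℝ) ≤ n := by exact_mod_cast hn0
        have h4 : 0 ≤ (n : ℝ) * s := mul_nonneg h3 (by linarith)
        have h5 := le_abs_self (y₁ + y₂)
        linarith [hz.1, hw'.1]
  have hky : (k : ℝ) * α < 1 := by nlinarith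
  have hS2 : 2 * y ∈ S.cap s (Ioo 1 (s - 1)) := by
    rw [hS]
    refine ⟨?_, ?_⟩
    · rw [hA]; exact ⟨y, hy, y, hy, by ring⟩
    · have h1 : (k + 2) * y ∈ Ioo 1 (s - 1) := by
        refine ⟨hy1, ?_⟩
        have h2 : ((k : ℝ) + 2) * y ≤ (k + 2) * α :=
          mul_le_mul_of_nonneg_left hyα (by positivity)
        nlinarith
      have h2 := hZ2 _ (symm_Ioo s) _ h1 y hy
      have h3 : (k + 2) * y - k * y = 2 * y := by ring
      rwa [h3] at h2
  have hSop : IsOpen (S.cap s (Ioo 1 (s - 1))) := by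
    rw [hS, hA]
    exact (isOpen_sum hop).inter (hZ3 _ isOpen_Ioo hop)
  refine ⟨W', ?_, ?_, ?_⟩
  · rw [hW', hT]
    exact ⟨h0, 2 * y, hS2, -(2 * y), cap_neg (symm_Ioo s) hS2, by ring⟩
  · rw [hW', hT]
    exact hop.inter (isOpen_sum hSop)
  · intro x hx
    rw [hW', hT] at hx
    obtain ⟨hxW, x₁, h1, x₂, h2, hx12⟩ := hx
    obtain ⟨x₀, hx0, e0⟩ := hc x hxW
    obtain ⟨p₁, e1, hp1, hp1'⟩ := hS1 x₁ h1
    obtain ⟨p₂, e2, hp2, hp2'⟩ := hS1 x₂ h2
    have e3 : (x₀ : AddCircle s) = ((p₁ + p₂ : ℝ) : AddCircle s) := by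
      rw [← e0, hx12, AddCircle.coe_add, e1, e2, AddCircle.coe_add]
    have h3 : |x₀ - (p₁ + p₂)| < s := by
      have h4 := abs_sub x₀ (p₁ + p₂)
      have h5 := abs_add_le p₁ p₂
      linarith
    have h6 := eq_of_coe e3 h3
    refine ⟨x₀, ?_, e0⟩
    have h7 : 2 * (1 - k * α) > α := by nlinarith
    rcases abs_cases p₁ with ⟨a1, b1⟩ | ⟨a1, b1⟩ <;> rcases abs_cases p₂ with ⟨a2, b2⟩ | ⟨a2, b2⟩
    · exfalso
      have := le_abs_self x₀
      linarith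
    · rw [h6, abs_le]; constructor <;> linarith
    · rw [h6, abs_le]; constructor <;> linarith
    · exfalso
      have := neg_le_abs x₀
      linarith

/-- the largest closed capacity is a multiple of `1 / q` and attained -/
lemma top (hint : S_int) (W : Net) (P q : ℕ) (hq : 0 < q) (hP : 2 * q < P) (n : ℕ)
    (h1 : ∀ x ∈ W.cap ((P : ℝ) / q) (Icc 1 ((P : ℝ) / q - 1)),
      ∃ y : ℝ, |y| ≤ ((n + 1 : ℕ) : ℝ) / q ∧ (x : AddCircle ((P : ℝ) / q)) = y)
    (h2 : ¬ ∀ x ∈ W.cap ((P : ℝ) / q) (Icc 1 ((P : ℝ) / q - 1)),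
      ∃ y : ℝ, |y| ≤ (n : ℝ) / q ∧ (x : AddCircle ((P : ℝ) / q)) = y) :
    ((n + 1 : ℕ) : ℝ) / q ∈ W.cap ((P : ℝ) / q) (Icc 1 ((P : ℝ) / q - 1)) := by
  push Not at h2
  obtain ⟨x, hx, h3⟩ := h2
  obtain ⟨y, hy, e⟩ := h1 x hx
  have hq' : (0 : ℝ) < q := by exact_mod_cast hq
  have h4 : (n : ℝ) / q < |y| := by
    by_contra h
    exact h3 y (not_lt.1 h) e
  have h5 : |y| ∈ W.cap ((P : ℝ) / q) (Icc 1 ((P : ℝ) / q - 1)) := by
    have h6 := cap_congr e hx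
    rcases abs_choice y with h | h
    · rwa [h]
    · rw [h]; exact cap_neg (symm_Icc _) h6
  rcases eq_or_lt_of_le hy with h | h
  · rwa [h] at h5
  · have h7 := hint W P q hq hP |y| h5 n (by
      rw [div_lt_iff₀ hq'] at h4
      push_cast
      linarith) (by
      rw [lt_div_iff₀ hq'] at h
      push_cast at h ⊢
      linarith)
    push_cast at h7 ⊢
    exact h7

theorem desc (hpar : S_par) (hser : S_ser) (hedge : S_edge) (hint : S_int) (hbase : S_base) :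
    S_desc := by
  intro P q hq hP star V E _ _ _ src dst hbr
  by_contra hno
  have hq' : (0 : ℝ) < q := by exact_mod_cast hq
  obtain ⟨s, hsdef⟩ : ∃ s : ℝ, s = (P : ℝ) / q := ⟨_, rfl⟩
  have hs : 5 ≤ s := by
    rw [hsdef, le_div_iff₀ hq']
    exact_mod_cast hP
  have hP2 : 2 * q < P := by omega
  have hint' := fun W => hint W P q hq hP2
  have htop := fun W => top hint W P q hq hP2
  rw [← hsdef] at star hno hint' htop
  obtain ⟨W₀, h00, hop0, hc0⟩ := hbase s hs star V E src dst hbr hno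
  let Weak : ℕ → Prop := fun n => ∃ W : Net, (0 : ℝ) ∈ W.cap s (Ioo 1 (s - 1)) ∧
    IsOpen (W.cap s (Ioo 1 (s - 1))) ∧
    ∀ x ∈ W.cap s (Icc 1 (s - 1)), ∃ y : ℝ, |y| ≤ (n : ℝ) / q ∧ (x : AddCircle s) = y
  have hexq : Weak (q - 1) := by
    refine ⟨W₀, h00, hop0, fun x hx => ?_⟩
    obtain ⟨y, hy, e⟩ := hc0 x hx
    refine ⟨y, ?_, e⟩
    by_contra h
    rw [not_le, div_lt_iff₀ hq'] at h
    have h5 : |y| ∈ W₀.cap s (Icc 1 (s - 1)) := by
      have h6 := cap_congr e hx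
      rcases abs_choice y with h | h
      · rwa [h]
      · rw [h]; exact cap_neg (symm_Icc _) h6
    have h7 := hint' W₀ |y| h5 ((q - 1 : ℕ) : ℤ) (by push_cast; push_cast at h; linarith) (by
      have : ((q - 1 : ℕ) : ℝ) + 1 = q := by
        rw [Nat.cast_sub (by omega)]; simp
      push_cast
      rw [this]
      nlinarith)
    have h8 : (((q - 1 : ℕ) : ℤ) : ℝ) + 1 = q := by
      have : ((q - 1 : ℕ) : ℝ) + 1 = q := by
        rw [Nat.cast_sub (by omega)]; simp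
      push_cast
      exact this
    rw [h8, div_self hq'.ne'] at h7
    obtain ⟨z, hz, e'⟩ := hc0 1 h7
    have h9 := eq_of_coe e' (by
      have := abs_sub 1 z
      rw [abs_one] at this
      linarith)
    rw [← h9, abs_one] at hz
    exact lt_irrefl _ hz
  have hex : ∃ n, Weak n := ⟨_, hexq⟩
  classical
  obtain ⟨n, hn, hmin⟩ : ∃ n, Weak n ∧ ∀ k < n, ¬ Weak k :=
    ⟨Nat.find hex, Nat.find_spec hex, fun k hk => Nat.find_min hex hk⟩
  have hn0 : n ≠ 0 := by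
    rintro rfl
    obtain ⟨W, h0, hop, hc⟩ := hn
    obtain ⟨ε, hε, hball⟩ := Metric.isOpen_iff.1 hop 0 h0
    have h1 : min (ε / 2) 1 ∈ W.cap s (Ioo 1 (s - 1)) := by
      refine hball ?_
      rw [Metric.mem_ball, Real.dist_eq, sub_zero, abs_of_pos (by positivity)]
      exact lt_of_le_of_lt (min_le_left _ _) (by linarith)
    obtain ⟨y, hy, e⟩ := hc _ (cap_mono Ioo_subset_Icc_self h1)
    have hy0 : y = 0 := by
      rw [Nat.cast_zero, zero_div] at hy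
      exact abs_eq_zero.1 (le_antisymm hy (abs_nonneg _))
    have hpos : 0 < min (ε / 2) 1 := by positivity
    have h2 := eq_of_coe e (by
      rw [hy0, sub_zero, abs_of_pos hpos]
      exact lt_of_le_of_lt (min_le_right _ _) (by linarith))
    rw [hy0] at h2
    exact hpos.ne' h2
  have hnq : n < q := by
    by_contra h
    refine hmin (q - 1) (by omega) ?_
    exact hexq
  obtain ⟨n, rfl⟩ := Nat.exists_eq_succ_of_ne_zero hn0
  obtain ⟨W, h0, hop, hc⟩ := hn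
  have hα := htop W n hc (fun h => hmin n (Nat.lt_succ_self n) ⟨W, h0, hop, h⟩)
  -- the number of copies
  have hexm : ∃ m, q ≤ m * (n + 1) := ⟨q, Nat.le_mul_of_pos_right _ (Nat.succ_pos n)⟩
  obtain ⟨m, hm, hmmin⟩ : ∃ m, q ≤ m * (n + 1) ∧ ∀ k < m, k * (n + 1) < q :=
    ⟨Nat.find hexm, Nat.find_spec hexm, fun k hk => not_le.1 (Nat.find_min hexm hk)⟩
  have hm2 : 2 ≤ m := by
    by_contra h
    have : m * (n + 1) ≤ 1 * (n + 1) := Nat.mul_le_mul_right _ (by omega)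
    omega
  obtain ⟨k, rfl⟩ : ∃ k, m = k + 2 := ⟨m - 2, by omega⟩
  have hk1 := hmmin (k + 1) (by omega)
  obtain ⟨α, hαdef⟩ : ∃ α : ℝ, α = ((n + 1 : ℕ) : ℝ) / q := ⟨_, rfl⟩
  have hα0 : 0 < α := by rw [hαdef]; positivity
  have hα1 : α < 1 := by
    rw [hαdef, div_lt_one hq']
    exact_mod_cast hnq
  have hkα : ((k : ℝ) + 1) * α < 1 := by
    rw [hαdef, mul_div_assoc', div_lt_one hq']
    exact_mod_cast hk1
  have hkα2 : 1 ≤ ((k : ℝ) + 2) * α := by
    rw [hαdef, mul_div_assoc', le_div_iff₀ hq', one_mul]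
    exact_mod_cast hm
  rw [← hαdef] at hα
  have hc' : ∀ x ∈ W.cap s (Icc 1 (s - 1)), ∃ y : ℝ, |y| ≤ α ∧ (x : AddCircle s) = y := by
    rw [hαdef]; exact hc
  by_cases hcase : ∃ y ∈ W.cap s (Ioo 1 (s - 1)), |y| ≤ α ∧ 1 < ((k : ℝ) + 2) * y
  · obtain ⟨y, hy, hy0, hy1⟩ := hcase
    obtain ⟨W', h0', hop', hc''⟩ :=
      step hpar hser hedge W s α hs hα0 hα1 k hkα h0 hop hc' y hy hy0 hy1
    refine hmin ((k + 2) * (n + 1) - q) ?_ ⟨W', h0', hop', ?_⟩
    · have : (k + 2) * (n + 1) = (k + 1) * (n + 1) + (n + 1) := by ring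
      omega
    · intro x hx
      obtain ⟨z, hz, e⟩ := hc'' x hx
      refine ⟨z, hz.trans (le_of_eq ?_), e⟩
      rw [hαdef, Nat.cast_sub hm]
      push_cast
      field_simp
  · push Not at hcase
    obtain ⟨Z, hZ1, hZ2, -⟩ := chain hpar hedge W s (k + 2)
    have h1 : MFlow s (Icc 1 (s - 1)) Z.src Z.dst := by
      rw [mflow_iff]
      have h2 : ((k : ℝ) + 2) * α ∈ Icc 1 (s - 1) := ⟨hkα2, by nlinarith⟩
      have h3 := hZ2 _ (symm_Icc s) _ h2 α hα
      have h4 : ((k : ℝ) + 2) * α - ((k + 2 : ℕ) : ℝ) * α = 0 := by push_cast; ring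
      rwa [h4] at h3
    have h2 := star _ _ _ _ h1
    rw [mflow_iff] at h2
    obtain ⟨z, hz, w, hw, e⟩ := hZ1 (Ioo 1 (s - 1)) (1 / (k + 2)) (fun x hx => by
      obtain ⟨y, hy, e⟩ := hc' x (cap_mono Ioo_subset_Icc_self hx)
      refine ⟨y, ?_, e⟩
      have h3 : |y| ∈ W.cap s (Ioo 1 (s - 1)) := by
        have h6 := cap_congr e hx
        rcases abs_choice y with h | h
        · rwa [h]
        · rw [h]; exact cap_neg (symm_Ioo _) h6
      have h4 := hcase |y| h3 (by rwa [abs_abs])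
      rw [le_div_iff₀ (by positivity)]
      linarith) 0 h2
    have h5 : ((k + 2 : ℕ) : ℝ) * (1 / (k + 2)) = 1 := by
      push_cast
      field_simp
    rw [h5] at hw
    obtain ⟨j, hj⟩ := coe_eq_iff.1 e
    have hw' := abs_le.1 hw
    have h6 : 0 < z + w := by linarith [hz.1]
    have h7 : z + w < s := by linarith [hz.2]
    have h8 : (0 : ℝ) < -j := by
      by_contra h
      have : 0 ≤ (j : ℝ) * s := mul_nonneg (by linarith) (by linarith)
      linarith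
    have h9 : (-j : ℝ) < 1 := by
      by_contra h
      have h10 : s ≤ (-j : ℝ) * s := by
        have := mul_le_mul_of_nonneg_right (not_lt.1 h) (by linarith : (0 : ℝ) ≤ s)
        linarith
      linarith
    have h11 : 0 < -j := by exact_mod_cast h8
    have h12 : -j < 1 := by exact_mod_cast h9
    omega

end H59.CF
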