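import Pool.Agent.H59.CF.Stm
import Pool.Agent.H59.CF.Desc

set_option autoImplicit false

/-!
# Parallel and series composition of networks
-/

namespace H59.CF

open Set

/-- redirecting the ends of edges -/
lemma dv_map {V V' E : Type} [DecidableEq V] [DecidableEq V'] [Fintype V] [Fintype E]
    (κ : V → V') (src dst : E → V) (f : E → ℝ) (w : V') :
    dv (fun e => κ (src e)) (fun e => κ (dst e)) f w =
      ∑ v, if κ v = w then dv src dst f v else 0 := by
  unfold dv
  have h : ∀ v : V, (if κ v = w then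
      ∑ e, f e * ((if src e = v then (1 : ℝ) else 0) - (if dst e = v then 1 else 0)) else 0) =
      ∑ e, if κ v = w then
        f e * ((if src e = v then (1 : ℝ) else 0) - (if dst e = v then 1 else 0)) else 0 := by
    intro v
    split_ifs
    · rfl
    · simp
  rw [Finset.sum_congr rfl fun v _ => h v, Finset.sum_comm]
  refine Finset.sum_congr rfl fun e _ => ?_
  have h1 : ∀ v : V, (if κ v = w then
      f e * ((if src e = v then (1 : ℝ) else 0) - (if dst e = v then 1 else 0)) else 0) =
      f e * ((if src e = v then (if κ v = w then 1 else 0) else 0) -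
        (if dst e = v then (if κ v = w then 1 else 0) else 0)) := by
    intro v
    by_cases h1 : κ v = w <;> simp [h1]
  rw [Finset.sum_congr rfl fun v _ => h1 v, ← Finset.mul_sum, Finset.sum_sub_distrib,
    Finset.sum_ite_eq, Finset.sum_ite_eq]
  simp

/-- flows on a disjoint union of the edges -/
lemma dv_sum {V E₁ E₂ : Type} [DecidableEq V] [Fintype E₁] [Fintype E₂]
    (s₁ t₁ : E₁ → V) (s₂ t₂ : E₂ → V) (f : E₁ ⊕ E₂ → ℝ) (w : V) :
    dv (Sum.elim s₁ s₂) (Sum.elim t₁ t₂) f w =
      dv s₁ t₁ (fun e => f (Sum.inl e)) w + dv s₂ t₂ (fun e => f (Sum.inr e)) w := by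
  unfold dv
  rw [Fintype.sum_sum_type]
  rfl

theorem edge : S_edge := by
  refine ⟨{ V := Bool, E := Unit, src := fun _ => true, dst := fun _ => false, a := true,
            b := false, hab := by simp }, fun s J => ?_⟩
  ext x
  simp only [Net.cap, Set.mem_ofPred_eq]
  have h : ∀ f : Unit → ℝ, dv (fun _ : Unit => true) (fun _ => false) f true = f () := by
    intro f; simp [dv]
  constructor
  · rintro ⟨f, h1, -, h3⟩
    refine ⟨f (), h1 (), ?_⟩
    rw [← h3]
    exact congrArg _ (h f)
  · rintro ⟨y, hy, h1⟩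
    refine ⟨fun _ => y, fun _ => hy, fun v ha hb => ?_, ?_⟩
    · cases v
      · exact absurd rfl hb
      · exact absurd rfl ha
    · rw [h1]
      exact congrArg _ (h _)

/-- the sum of the net outflows over all vertices is zero -/
lemma coe_sum_dv {V E : Type} [DecidableEq V] [Fintype V] [Fintype E] (s : ℝ) (src dst : E → V)
    (f : E → ℝ) : ∑ v, ((dv src dst f v : ℝ) : AddCircle s) = 0 := by
  have h4 : ((∑ v, dv src dst f v : ℝ) : AddCircle s) = 0 := by
    rw [sum_dv, AddCircle.coe_zero]
  have := map_sum (QuotientAddGroup.mk' (AddSubgroup.zmultiples s))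
    (fun v => dv src dst f v) Finset.univ
  exact this.symm.trans h4

/-- the condition at the second terminal -/
lemma coe_b {V E : Type} [DecidableEq V] [Fintype V] [Fintype E] (s : ℝ) (src dst : E → V)
    (f : E → ℝ) (a b : V) (hab : a ≠ b)
    (h : ∀ v, v ≠ a → v ≠ b → ((dv src dst f v : ℝ) : AddCircle s) = 0) :
    ((dv src dst f b : ℝ) : AddCircle s) = -((dv src dst f a : ℝ) : AddCircle s) := by
  have h1 := coe_sum_dv s src dst f
  rw [← Finset.add_sum_erase _ _ (Finset.mem_univ a),
    ← Finset.add_sum_erase _ _ (Finset.mem_erase.2 ⟨hab.symm, Finset.mem_univ b⟩)] at h1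
  rw [Finset.sum_eq_zero, add_zero] at h1
  · rw [add_comm] at h1
    exact eq_neg_of_add_eq_zero_left h1
  · intro v hv
    rw [Finset.mem_erase, Finset.mem_erase] at hv
    exact h v hv.2.1 hv.1

theorem par : S_par := by
  intro W₁ W₂
  let κ : W₂.V → W₁.V ⊕ W₂.V := fun v =>
    if v = W₂.a then Sum.inl W₁.a else if v = W₂.b then Sum.inl W₁.b else Sum.inr v
  let W : Net := { V := W₁.V ⊕ W₂.V, E := W₁.E ⊕ W₂.E,
                   src := Sum.elim (fun e => Sum.inl (W₁.src e)) (fun e => κ (W₂.src e)),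
                   dst := Sum.elim (fun e => Sum.inl (W₁.dst e)) (fun e => κ (W₂.dst e)),
                   a := Sum.inl W₁.a, b := Sum.inl W₁.b,
                   hab := fun h => W₁.hab (Sum.inl_injective h) }
  refine ⟨W, fun s J => ?_⟩
  have hκa : κ W₂.a = Sum.inl W₁.a := by simp [κ]
  have hκb : κ W₂.b = Sum.inl W₁.b := by simp [κ, W₂.hab.symm]
  have hκv : ∀ v, v ≠ W₂.a → v ≠ W₂.b → κ v = Sum.inr v := by
    intro v h1 h2; simp [κ, h1, h2]
  have hl : ∀ (f : W₁.E ⊕ W₂.E → ℝ) (w : W₁.V), dv W.src W.dst f (Sum.inl w) =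
      dv W₁.src W₁.dst (fun e => f (Sum.inl e)) w +
        ((if w = W₁.a then dv W₂.src W₂.dst (fun e => f (Sum.inr e)) W₂.a else 0) +
         (if w = W₁.b then dv W₂.src W₂.dst (fun e => f (Sum.inr e)) W₂.b else 0)) := by
    intro f w
    have h1 := dv_sum (fun e => Sum.inl (W₁.src e)) (fun e => Sum.inl (W₁.dst e))
      (fun e => κ (W₂.src e)) (fun e => κ (W₂.dst e)) f (Sum.inl w)
    have h2 : dv (fun e => (Sum.inl (W₁.src e) : W₁.V ⊕ W₂.V)) (fun e => Sum.inl (W₁.dst e))
        (fun e => f (Sum.inl e)) (Sum.inl w) =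
        dv W₁.src W₁.dst (fun e => f (Sum.inl e)) w := by
      unfold dv
      simp
    have h3 := dv_map κ W₂.src W₂.dst (fun e => f (Sum.inr e)) (Sum.inl w)
    have h4 : (∑ v, if κ v = Sum.inl w then dv W₂.src W₂.dst (fun e => f (Sum.inr e)) v else 0) =
        (if w = W₁.a then dv W₂.src W₂.dst (fun e => f (Sum.inr e)) W₂.a else 0) +
         (if w = W₁.b then dv W₂.src W₂.dst (fun e => f (Sum.inr e)) W₂.b else 0) := by
      rw [← Finset.add_sum_erase _ _ (Finset.mem_univ W₂.a),
        ← Finset.add_sum_erase _ _ (Finset.mem_erase.2 ⟨W₂.hab.symm, Finset.mem_univ W₂.b⟩),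
        Finset.sum_eq_zero, add_zero, hκa, hκb]
      · simp only [Sum.inl.injEq, eq_comm (a := w)]
      · intro v hv
        rw [Finset.mem_erase, Finset.mem_erase] at hv
        rw [hκv v hv.2.1 hv.1]
        simp
    calc dv W.src W.dst f (Sum.inl w) = _ := h1
      _ = _ := by rw [h2, h3, h4]
  have hr : ∀ (f : W₁.E ⊕ W₂.E → ℝ) (w : W₂.V), dv W.src W.dst f (Sum.inr w) =
      if w = W₂.a ∨ w = W₂.b then 0 else dv W₂.src W₂.dst (fun e => f (Sum.inr e)) w := by
    intro f w
    have h1 := dv_sum (fun e => Sum.inl (W₁.src e)) (fun e => Sum.inl (W₁.dst e))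
      (fun e => κ (W₂.src e)) (fun e => κ (W₂.dst e)) f (Sum.inr w)
    have h2 : dv (fun e => (Sum.inl (W₁.src e) : W₁.V ⊕ W₂.V)) (fun e => Sum.inl (W₁.dst e))
        (fun e => f (Sum.inl e)) (Sum.inr w) = 0 := by
      unfold dv
      simp
    have h3 := dv_map κ W₂.src W₂.dst (fun e => f (Sum.inr e)) (Sum.inr w)
    have h4 : (∑ v, if κ v = Sum.inr w then dv W₂.src W₂.dst (fun e => f (Sum.inr e)) v else 0) =
        if w = W₂.a ∨ w = W₂.b then 0 else dv W₂.src W₂.dst (fun e => f (Sum.inr e)) w := by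
      rw [Finset.sum_eq_single w]
      · by_cases ha : w = W₂.a
        · simp [ha, hκa]
        · by_cases hb : w = W₂.b
          · simp [hb, hκb]
          · simp [hκv w ha hb, ha, hb]
      · intro v _ hv
        by_cases ha : v = W₂.a
        · simp [ha, hκa]
        · by_cases hb : v = W₂.b
          · simp [hb, hκb]
          · rw [hκv v ha hb]
            simp [hv]
      · intro h; exact absurd (Finset.mem_univ _) h
    calc dv W.src W.dst f (Sum.inr w) = _ := h1
      _ = _ := by rw [h2, h3, h4, zero_add]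
  ext x
  constructor
  · rintro ⟨f, h1, h2, h3⟩
    have g2 : ∀ v, v ≠ W₂.a → v ≠ W₂.b →
        ((dv W₂.src W₂.dst (fun e => f (Sum.inr e)) v : ℝ) : AddCircle s) = 0 := by
      intro v ha hb
      have h4 := h2 (Sum.inr v) (by simp [W]) (by simp [W])
      rw [hr] at h4
      simpa [ha, hb] using h4
    have gb := coe_b s W₂.src W₂.dst _ W₂.a W₂.b W₂.hab g2
    refine ⟨x - dv W₂.src W₂.dst (fun e => f (Sum.inr e)) W₂.a, ?_,
      dv W₂.src W₂.dst (fun e => f (Sum.inr e)) W₂.a, ?_, by ring⟩
    · refine ⟨fun e => f (Sum.inl e), fun e => h1 _, fun v ha hb => ?_, ?_⟩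
      · have h4 := h2 (Sum.inl v) (by simpa [W] using ha) (by simpa [W] using hb)
        rw [hl] at h4
        simpa [ha, hb] using h4
      · have h4 : ((dv W.src W.dst f (Sum.inl W₁.a) : ℝ) : AddCircle s) = x := h3
        rw [hl] at h4
        simp only [if_true, W₁.hab, if_false, add_zero] at h4
        rw [AddCircle.coe_add] at h4
        rw [AddCircle.coe_sub]
        exact eq_sub_of_add_eq h4
    · exact ⟨fun e => f (Sum.inr e), fun e => h1 _, g2, rfl⟩
  · rintro ⟨x₁, ⟨f₁, a1, a2, a3⟩, x₂, ⟨f₂, b1, b2, b3⟩, rfl⟩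
    have gb := coe_b s W₂.src W₂.dst f₂ W₂.a W₂.b W₂.hab b2
    refine ⟨Sum.elim f₁ f₂, fun e => ?_, fun v ha hb => ?_, ?_⟩
    · cases e
      · exact a1 _
      · exact b1 _
    · cases v with
      | inl v =>
        have ha' : v ≠ W₁.a := fun h => ha (by rw [h])
        have hb' : v ≠ W₁.b := fun h => hb (by rw [h])
        rw [hl]
        simp only [ha', hb', if_false, add_zero]
        exact a2 v ha' hb'
      | inr v =>
        rw [hr]
        by_cases h : v = W₂.a ∨ v = W₂.b
        · simp [h]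
        · simp only [h, if_false]
          push Not at h
          exact b2 v h.1 h.2
    · have h4 : ((dv W.src W.dst (Sum.elim f₁ f₂) (Sum.inl W₁.a) : ℝ) : AddCircle s) =
          ((x₁ + x₂ : ℝ) : AddCircle s) := by
        rw [hl]
        simp only [if_true, W₁.hab, if_false, add_zero]
        rw [AddCircle.coe_add, AddCircle.coe_add]
        exact congrArg₂ _ a3 b3
      exact h4

theorem ser : S_ser := by
  intro W₁ W₂
  let κ : W₂.V → W₁.V ⊕ W₂.V := fun v => if v = W₂.a then Sum.inl W₁.b else Sum.inr v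
  let W : Net := { V := W₁.V ⊕ W₂.V, E := W₁.E ⊕ W₂.E,
                   src := Sum.elim (fun e => Sum.inl (W₁.src e)) (fun e => κ (W₂.src e)),
                   dst := Sum.elim (fun e => Sum.inl (W₁.dst e)) (fun e => κ (W₂.dst e)),
                   a := Sum.inl W₁.a, b := Sum.inr W₂.b,
                   hab := by simp }
  refine ⟨W, fun s J => ?_⟩
  have hκa : κ W₂.a = Sum.inl W₁.b := by simp [κ]
  have hκv : ∀ v, v ≠ W₂.a → κ v = Sum.inr v := by
    intro v h1; simp [κ, h1]
  have hl : ∀ (f : W₁.E ⊕ W₂.E → ℝ) (w : W₁.V), dv W.src W.dst f (Sum.inl w) =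
      dv W₁.src W₁.dst (fun e => f (Sum.inl e)) w +
        (if w = W₁.b then dv W₂.src W₂.dst (fun e => f (Sum.inr e)) W₂.a else 0) := by
    intro f w
    have h1 := dv_sum (fun e => Sum.inl (W₁.src e)) (fun e => Sum.inl (W₁.dst e))
      (fun e => κ (W₂.src e)) (fun e => κ (W₂.dst e)) f (Sum.inl w)
    have h2 : dv (fun e => (Sum.inl (W₁.src e) : W₁.V ⊕ W₂.V)) (fun e => Sum.inl (W₁.dst e))
        (fun e => f (Sum.inl e)) (Sum.inl w) =
        dv W₁.src W₁.dst (fun e => f (Sum.inl e)) w := by
      unfold dv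
      simp
    have h3 := dv_map κ W₂.src W₂.dst (fun e => f (Sum.inr e)) (Sum.inl w)
    have h4 : (∑ v, if κ v = Sum.inl w then dv W₂.src W₂.dst (fun e => f (Sum.inr e)) v else 0) =
        (if w = W₁.b then dv W₂.src W₂.dst (fun e => f (Sum.inr e)) W₂.a else 0) := by
      rw [Finset.sum_eq_single W₂.a, hκa]
      · simp only [Sum.inl.injEq, eq_comm (a := w)]
      · intro v _ hv
        rw [hκv v hv]
        simp
      · intro h; exact absurd (Finset.mem_univ _) h
    calc dv W.src W.dst f (Sum.inl w) = _ := h1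
      _ = _ := by rw [h2, h3, h4]
  have hr : ∀ (f : W₁.E ⊕ W₂.E → ℝ) (w : W₂.V), dv W.src W.dst f (Sum.inr w) =
      if w = W₂.a then 0 else dv W₂.src W₂.dst (fun e => f (Sum.inr e)) w := by
    intro f w
    have h1 := dv_sum (fun e => Sum.inl (W₁.src e)) (fun e => Sum.inl (W₁.dst e))
      (fun e => κ (W₂.src e)) (fun e => κ (W₂.dst e)) f (Sum.inr w)
    have h2 : dv (fun e => (Sum.inl (W₁.src e) : W₁.V ⊕ W₂.V)) (fun e => Sum.inl (W₁.dst e))
        (fun e => f (Sum.inl e)) (Sum.inr w) = 0 := by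
      unfold dv
      simp
    have h3 := dv_map κ W₂.src W₂.dst (fun e => f (Sum.inr e)) (Sum.inr w)
    have h4 : (∑ v, if κ v = Sum.inr w then dv W₂.src W₂.dst (fun e => f (Sum.inr e)) v else 0) =
        if w = W₂.a then 0 else dv W₂.src W₂.dst (fun e => f (Sum.inr e)) w := by
      rw [Finset.sum_eq_single w]
      · by_cases ha : w = W₂.a
        · simp [ha, hκa]
        · simp [hκv w ha, ha]
      · intro v _ hv
        by_cases ha : v = W₂.a
        · simp [ha, hκa]
        · rw [hκv v ha]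
          simp [hv]
      · intro h; exact absurd (Finset.mem_univ _) h
    calc dv W.src W.dst f (Sum.inr w) = _ := h1
      _ = _ := by rw [h2, h3, h4, zero_add]
  ext x
  constructor
  · rintro ⟨f, h1, h2, h3⟩
    have hb' : ((dv W.src W.dst f (Sum.inr W₂.b) : ℝ) : AddCircle s) = -(x : AddCircle s) := by
      have := coe_b s W.src W.dst f W.a W.b W.hab h2
      rw [h3] at this
      exact this
    have g1 : ((dv W₁.src W₁.dst (fun e => f (Sum.inl e)) W₁.a : ℝ) : AddCircle s) = x := by
      have h4 : ((dv W.src W.dst f (Sum.inl W₁.a) : ℝ) : AddCircle s) = x := h3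
      rw [hl] at h4
      simpa only [W₁.hab, if_false, add_zero] using h4
    have g2 : ∀ v, v ≠ W₂.a → v ≠ W₂.b →
        ((dv W₂.src W₂.dst (fun e => f (Sum.inr e)) v : ℝ) : AddCircle s) = 0 := by
      intro v ha hb
      have h4 := h2 (Sum.inr v) (by simp [W]) (by simpa [W] using hb)
      rw [hr] at h4
      simpa [ha] using h4
    have gb := coe_b s W₂.src W₂.dst _ W₂.a W₂.b W₂.hab g2
    rw [hr] at hb'
    simp only [W₂.hab.symm, if_false] at hb'
    refine ⟨⟨fun e => f (Sum.inl e), fun e => h1 _, fun v ha hb => ?_, g1⟩,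
      ⟨fun e => f (Sum.inr e), fun e => h1 _, g2, ?_⟩⟩
    · have h4 := h2 (Sum.inl v) (by simpa [W] using ha) (by simp [W])
      rw [hl] at h4
      simpa [hb] using h4
    · rw [gb] at hb'
      exact neg_injective hb'
  · rintro ⟨⟨f₁, a1, a2, a3⟩, ⟨f₂, b1, b2, b3⟩⟩
    have ga := coe_b s W₁.src W₁.dst f₁ W₁.a W₁.b W₁.hab a2
    refine ⟨Sum.elim f₁ f₂, fun e => ?_, fun v ha hb => ?_, ?_⟩
    · cases e
      · exact a1 _
      · exact b1 _
    · cases v with
      | inl v =>
        have ha' : v ≠ W₁.a := fun h => ha (by rw [h])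
        rw [hl]
        by_cases hb' : v = W₁.b
        · subst hb'
          simp only [if_true]
          rw [AddCircle.coe_add]
          have h5 : ((dv W₁.src W₁.dst f₁ W₁.b : ℝ) : AddCircle s) +
              ((dv W₂.src W₂.dst f₂ W₂.a : ℝ) : AddCircle s) = 0 := by
            rw [ga, a3, b3, neg_add_cancel]
          exact h5
        · simp only [hb', if_false, add_zero]
          exact a2 v ha' hb'
      | inr v =>
        have hb' : v ≠ W₂.b := fun h => hb (by rw [h])
        rw [hr]
        by_cases h : v = W₂.a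
        · simp [h]
        · simp only [h, if_false]
          exact b2 v h hb'
    · have h4 : ((dv W.src W.dst (Sum.elim f₁ f₂) (Sum.inl W₁.a) : ℝ) : AddCircle s) =
          (x : AddCircle s) := by
        rw [hl]
        simp only [W₁.hab, if_false, add_zero]
        exact a3
      exact h4

end H59.CF
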