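import Pool.Agent.H59.CF.Stm

set_option autoImplicit false

/-!
# The rounding lemma for flows
-/

namespace H59.CF

variable {V E : Type} [DecidableEq V] [Fintype E]

lemma rd_add (src dst : E → V) (f g : E → ℝ) (t : ℝ) (v : V) :
    dv src dst (fun e => f e + t * g e) v = dv src dst f v + t * dv src dst g v := by
  unfold dv
  rw [Finset.mul_sum, ← Finset.sum_add_distrib]
  exact Finset.sum_congr rfl fun e _ => by ring

lemma rd_single [DecidableEq E] (src dst : E → V) (e₁ : E) (v : V) :
    dv src dst (fun e => if e = e₁ then 1 else 0) v =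
      (if src e₁ = v then 1 else 0) - (if dst e₁ = v then 1 else 0) := by
  unfold dv
  simp

lemma rd_cut (src dst : E → V) (f : E → ℝ) (X : Finset V) :
    ∑ v ∈ X, dv src dst f v =
      ∑ e, f e * ((if src e ∈ X then 1 else 0) - (if dst e ∈ X then 1 else 0)) := by
  unfold dv
  rw [Finset.sum_comm]
  refine Finset.sum_congr rfl fun e _ => ?_
  rw [← Finset.mul_sum, Finset.sum_sub_distrib]
  congr 2
  · rw [Finset.sum_ite_eq]
  · rw [Finset.sum_ite_eq]

/-- a fractional edge is in a circulation supported on fractional edges -/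
lemma rd_circ [Fintype V] (src dst : E → V) (y : E → ℝ) (hy : ∀ v, ∃ k : ℤ, dv src dst y v = k)
    (e₁ : E) (he : ¬ ∃ k : ℤ, y e₁ = k) :
    ∃ c : E → ℝ, c e₁ = 1 ∧ (∀ e, (∃ k : ℤ, y e = k) → c e = 0) ∧ ∀ v, dv src dst c v = 0 := by
  classical
  let X : Finset V := Finset.univ.filter fun w => ∃ h : E → ℝ,
    (∀ e, ((∃ k : ℤ, y e = k) ∨ e = e₁) → h e = 0) ∧
    ∀ v, dv src dst h v = (if dst e₁ = v then 1 else 0) - (if w = v then 1 else 0)
  have hX : ∀ w, w ∈ X ↔ ∃ h : E → ℝ,
    (∀ e, ((∃ k : ℤ, y e = k) ∨ e = e₁) → h e = 0) ∧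
    ∀ v, dv src dst h v = (if dst e₁ = v then 1 else 0) - (if w = v then 1 else 0) := by
    intro w; simp [X]
  by_cases hs : src e₁ ∈ X
  · obtain ⟨h, h1, h2⟩ := (hX _).1 hs
    refine ⟨fun e => h e + 1 * (if e = e₁ then 1 else 0), ?_, ?_, ?_⟩
    · simp [h1 e₁ (Or.inr rfl)]
    · intro e he'
      have : e ≠ e₁ := by rintro rfl; exact he he'
      simp [h1 e (Or.inl he'), this]
    · intro v
      rw [rd_add, h2, rd_single]
      ring
  · exfalso
    have hd : dst e₁ ∈ X := (hX _).2 ⟨fun _ => 0, fun _ _ => rfl, fun v => by simp [dv]⟩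
    have hstep : ∀ e, ¬ (∃ k : ℤ, y e = k) → e ≠ e₁ → (src e ∈ X ↔ dst e ∈ X) := by
      intro e he1 he2
      constructor
      · intro h
        obtain ⟨g, g1, g2⟩ := (hX _).1 h
        refine (hX _).2 ⟨fun e' => g e' + 1 * (if e' = e then 1 else 0), fun e' he' => ?_,
          fun v => ?_⟩
        · have : e' ≠ e := by
            rintro rfl
            rcases he' with h | h
            · exact he1 h
            · exact he2 h
          simp [g1 e' he', this]
        · rw [rd_add, g2, rd_single]
          ring
      · intro h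
        obtain ⟨g, g1, g2⟩ := (hX _).1 h
        refine (hX _).2 ⟨fun e' => g e' + (-1) * (if e' = e then 1 else 0), fun e' he' => ?_,
          fun v => ?_⟩
        · have : e' ≠ e := by
            rintro rfl
            rcases he' with h | h
            · exact he1 h
            · exact he2 h
          simp [g1 e' he', this]
        · rw [rd_add, g2, rd_single]
          ring
    have hint : ∀ t : ℝ, t ∈ (Int.castAddHom ℝ).range ↔ ∃ k : ℤ, t = k := by
      intro t
      constructor
      · rintro ⟨k, rfl⟩; exact ⟨k, rfl⟩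
      · rintro ⟨k, rfl⟩; exact ⟨k, rfl⟩
    have h1 : ∑ v ∈ X, dv src dst y v ∈ (Int.castAddHom ℝ).range :=
      sum_mem fun v _ => (hint _).2 (hy v)
    rw [rd_cut, ← Finset.add_sum_erase _ _ (Finset.mem_univ e₁)] at h1
    have h2 : ∑ e ∈ Finset.univ.erase e₁,
        y e * ((if src e ∈ X then 1 else 0) - (if dst e ∈ X then 1 else 0)) ∈
        (Int.castAddHom ℝ).range := by
      refine sum_mem fun e he' => ?_
      rw [Finset.mem_erase] at he'
      by_cases h3 : ∃ k : ℤ, y e = k
      · obtain ⟨k, hk⟩ := h3
        rw [hk]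
        by_cases h4 : src e ∈ X <;> by_cases h5 : dst e ∈ X
        · simp only [h4, h5, if_true, sub_self, mul_zero]; exact zero_mem _
        · simp only [h4, h5, if_true, if_false, sub_zero, mul_one]; exact ⟨k, rfl⟩
        · simp only [h4, h5, if_true, if_false, zero_sub, mul_neg, mul_one]
          exact neg_mem ⟨k, rfl⟩
        · simp only [h4, h5, if_false, sub_self, mul_zero]; exact zero_mem _
      · have h4 := hstep e h3 he'.1
        by_cases h5 : src e ∈ X
        · simp only [h5, h4.1 h5, if_true, sub_self, mul_zero]; exact zero_mem _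
        · have h6 : dst e ∉ X := fun h => h5 (h4.2 h)
          simp only [h5, h6, if_false, sub_self, mul_zero]; exact zero_mem _
    have h3 := (AddSubgroup.add_mem_cancel_right _ h2).1 h1
    simp only [hs, hd, if_true, if_false, zero_sub, mul_neg, mul_one] at h3
    exact he ((hint _).1 (by simpa using neg_mem h3))

theorem round : S_round := by
  intro V E _ _ _ src dst y e₀ hy
  classical
  generalize hN : (Finset.univ.filter fun e => ¬ ∃ k : ℤ, y e = k).card = N
  induction N using Nat.strong_induction_on generalizing y with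
  | _ N ih =>
    by_cases hF : ∃ e, ¬ ∃ k : ℤ, y e = k
    · obtain ⟨e₁, he₁, he₀⟩ : ∃ e₁, (¬ ∃ k : ℤ, y e₁ = k) ∧
          ((¬ ∃ k : ℤ, y e₀ = k) → e₁ = e₀) := by
        by_cases h : ∃ k : ℤ, y e₀ = k
        · obtain ⟨e, he⟩ := hF
          exact ⟨e, he, fun h' => absurd h h'⟩
        · exact ⟨e₀, h, fun _ => rfl⟩
      obtain ⟨c, hc1, hc2, hc3⟩ := rd_circ src dst y hy e₁ he₁
      -- bounds
      let b : E → ℝ := fun e => if 0 < c e then (⌈y e⌉ - y e) / c e else (y e - ⌊y e⌋) / (-c e)
      have hbpos : ∀ e, c e ≠ 0 → 0 < b e := by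
        intro e he
        have hfr : ¬ ∃ k : ℤ, y e = k := fun h => he (hc2 e h)
        have h1 : (⌊y e⌋ : ℝ) < y e :=
          lt_of_le_of_ne (Int.floor_le _) fun h => hfr ⟨_, h.symm⟩
        have h2 : y e < ⌈y e⌉ := lt_of_le_of_ne (Int.le_ceil _) fun h => hfr ⟨_, h⟩
        by_cases h : 0 < c e
        · simp only [b, h, if_true]
          exact div_pos (by linarith) h
        · simp only [b, h, if_false]
          have : c e < 0 := lt_of_le_of_ne (not_lt.1 h) he
          exact div_pos (by linarith) (by linarith)
      obtain ⟨e₂, he₂, hmin⟩ := Finset.exists_min_image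
        (Finset.univ.filter fun e => c e ≠ 0) b ⟨e₁, by simp [hc1]⟩
      rw [Finset.mem_filter] at he₂
      have he₂' := he₂.2
      have hmin' : ∀ e, c e ≠ 0 → b e₂ ≤ b e := fun e he => hmin e (by simp [he])
      obtain ⟨t, ht⟩ : ∃ t, t = b e₂ := ⟨_, rfl⟩
      have ht0 : 0 < t := ht ▸ hbpos _ he₂'
      let y' : E → ℝ := fun e => y e + t * c e
      have hlow : ∀ e, (⌊y e⌋ : ℝ) ≤ y' e := by
        intro e
        rcases lt_trichotomy (c e) 0 with h | h | h
        · have h1 := hmin' e h.ne
          rw [← ht] at h1
          simp only [b, not_lt.2 h.le, if_false] at h1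
          rw [le_div_iff₀ (by linarith)] at h1
          simp only [y']
          linarith
        · simp only [y', h, mul_zero, add_zero]; exact Int.floor_le _
        · have := mul_pos ht0 h
          simp only [y']
          linarith [Int.floor_le (y e)]
      have hupp : ∀ e, y' e ≤ ⌈y e⌉ := by
        intro e
        rcases lt_trichotomy (c e) 0 with h | h | h
        · have := mul_neg_of_pos_of_neg ht0 h
          simp only [y']
          linarith [Int.le_ceil (y e)]
        · simp only [y', h, mul_zero, add_zero]; exact Int.le_ceil _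
        · have h1 := hmin' e h.ne'
          rw [← ht] at h1
          simp only [b, h, if_true] at h1
          rw [le_div_iff₀ h] at h1
          simp only [y']
          linarith
      have hint2 : ∃ k : ℤ, y' e₂ = k := by
        by_cases h : 0 < c e₂
        · refine ⟨⌈y e₂⌉, ?_⟩
          have h1 : t * c e₂ = ⌈y e₂⌉ - y e₂ := by
            rw [ht]; simp only [b, h, if_true]; exact div_mul_cancel₀ _ he₂'
          simp only [y']
          linarith
        · refine ⟨⌊y e₂⌋, ?_⟩
          have h1 : t * (-c e₂) = y e₂ - ⌊y e₂⌋ := by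
            rw [ht]; simp only [b, h, if_false]
            exact div_mul_cancel₀ _ (neg_ne_zero.2 he₂')
          simp only [y']
          linarith
      have hsub : (Finset.univ.filter fun e => ¬ ∃ k : ℤ, y' e = k).card <
          (Finset.univ.filter fun e => ¬ ∃ k : ℤ, y e = k).card := by
        apply Finset.card_lt_card
        rw [Finset.ssubset_iff_of_subset]
        · refine ⟨e₂, ?_, ?_⟩
          · simp only [Finset.mem_filter, Finset.mem_univ, true_and]
            exact fun h => he₂' (hc2 _ h)
          · simp only [Finset.mem_filter, Finset.mem_univ, true_and, not_not]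
            exact hint2
        · intro e he
          simp only [Finset.mem_filter, Finset.mem_univ, true_and] at he ⊢
          intro h
          apply he
          simp only [y', hc2 e h, mul_zero, add_zero]
          exact h
      have hdv : ∀ v, dv src dst y' v = dv src dst y v := by
        intro v
        simp only [y']
        rw [rd_add, hc3, mul_zero, add_zero]
      obtain ⟨z, hz1, hz2, hz3⟩ := ih _ (hN ▸ hsub) y' (fun v => by rw [hdv]; exact hy v) rfl
      refine ⟨z, fun v => by rw [hz1, hdv], fun e => ⟨?_, ?_⟩, ?_⟩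
      · exact (Int.le_floor.2 (hlow e)).trans (hz2 e).1
      · exact (hz2 e).2.trans (Int.ceil_le.2 (hupp e))
      · rw [hz3]
        by_cases h : ∃ k : ℤ, y e₀ = k
        · simp only [y', hc2 e₀ h, mul_zero, add_zero]
        · have h1 := he₀ h
          subst h1
          apply le_antisymm (Int.ceil_le.2 (hupp e₁))
          apply Int.ceil_le_ceil
          simp only [y', hc1]
          linarith
    · push Not at hF
      choose z hz using hF
      refine ⟨z, fun v => ?_, fun e => ?_, ?_⟩
      · congr 1
        funext e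
        exact (hz e).symm
      · rw [hz e]; simp
      · rw [hz e₀]; simp

end H59.CF
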