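import Pool.Agent.H59.CF.Stm
import Pool.Agent.H59.CF.Desc
import Pool.Agent.H59.CF.Glue
import Pool.Agent.H59.CF.Round

set_option autoImplicit false

/-!
# A graph without closed flows modulo `s` gives a network of small capacity
-/

namespace H59.CF

open Set

section

variable {V E : Type} [DecidableEq V] [Fintype V] [Fintype E] [DecidableEq E]

/-- one edge separated -/
lemma dv_erase (src dst : E → V) (f : E → ℝ) (e₀ : E) (v : V) :
    dv src dst f v = f e₀ * ((if src e₀ = v then 1 else 0) - (if dst e₀ = v then 1 else 0)) +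
      dv (fun e : {e // e ≠ e₀} => src e) (fun e : {e // e ≠ e₀} => dst e)
        (fun e : {e // e ≠ e₀} => f e) v := by
  unfold dv
  exact Fintype.sum_eq_add_sum_subtype_ne _ e₀

/-- extension of a function by one value -/
noncomputable def ext (e₀ : E) (g : {e // e ≠ e₀} → ℝ) (r : ℝ) : E → ℝ :=
  fun e => if h : e = e₀ then r else g ⟨e, h⟩

lemma ext_self (e₀ : E) (g : {e // e ≠ e₀} → ℝ) (r : ℝ) : ext e₀ g r e₀ = r := by
  simp [ext]

lemma ext_ne (e₀ : E) (g : {e // e ≠ e₀} → ℝ) (r : ℝ) (e : {e // e ≠ e₀}) :
    ext e₀ g r e = g e := by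
  simp [ext, e.2]

lemma dv_ext (src dst : E → V) (e₀ : E) (g : {e // e ≠ e₀} → ℝ) (r : ℝ) (v : V) :
    dv src dst (ext e₀ g r) v =
      r * ((if src e₀ = v then 1 else 0) - (if dst e₀ = v then 1 else 0)) +
      dv (fun e : {e // e ≠ e₀} => src e) (fun e : {e // e ≠ e₀} => dst e) g v := by
  rw [dv_erase _ _ _ e₀, ext_self]
  congr 2
  funext e
  exact ext_ne e₀ g r e

lemma ext_mem (e₀ : E) (g : {e // e ≠ e₀} → ℝ) (r : ℝ) (J : Set ℝ) (hg : ∀ e, g e ∈ J)
    (hr : r ∈ J) (e : E) : ext e₀ g r e ∈ J := by
  by_cases h : e = e₀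
  · subst h; rw [ext_self]; exact hr
  · have := ext_ne e₀ g r ⟨e, h⟩
    rw [this]
    exact hg _

/-- the ends of an edge which is not a bridge are connected outside of the edge -/
lemma conn (src dst : E → V) (hbr : Bridgeless src dst) (e₀ : E) :
    ∃ h : {e // e ≠ e₀} → ℝ, ∀ v,
      dv (fun e : {e // e ≠ e₀} => src e) (fun e : {e // e ≠ e₀} => dst e) h v =
        (if src e₀ = v then 1 else 0) - (if dst e₀ = v then 1 else 0) := by
  let X : Set V := {w | ∃ h : {e // e ≠ e₀} → ℝ, ∀ v,
      dv (fun e : {e // e ≠ e₀} => src e) (fun e : {e // e ≠ e₀} => dst e) h v =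
        (if src e₀ = v then 1 else 0) - (if w = v then 1 else 0)}
  have hs : src e₀ ∈ X := ⟨fun _ => 0, fun v => by simp [dv]⟩
  by_contra hcon
  have hd : dst e₀ ∉ X := hcon
  refine hbr X ⟨e₀, by simp [hs, hd], fun e he => ?_⟩
  by_contra hne
  apply he
  constructor
  · rintro ⟨h, hh⟩
    refine ⟨fun e' => h e' + 1 * (if e' = (⟨e, hne⟩ : {e // e ≠ e₀}) then 1 else 0), fun v => ?_⟩
    rw [rd_add, hh, rd_single]
    ring
  · rintro ⟨h, hh⟩
    refine ⟨fun e' => h e' + (-1) * (if e' = (⟨e, hne⟩ : {e // e ≠ e₀}) then 1 else 0),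
      fun v => ?_⟩
    rw [rd_add, hh, rd_single]
    ring

/-- an open flow of the contraction of one of the two edges `b`, `e₀` of a cut -/
lemma uncontract (s : ℝ) (src dst : E → V) (X : Set V) (b e₀ : E) (hbe : b ≠ e₀)
    (hX : ∀ e, ¬ (src e ∈ X ↔ dst e ∈ X) ↔ e = b ∨ e = e₀)
    (hfl : MFlow s (Ioo 1 (s - 1))
      (fun e : {e // e ≠ b} => if src e = dst b then src b else src e)
      (fun e : {e // e ≠ b} => if dst e = dst b then src b else dst e)) :
    MFlow s (Ioo 1 (s - 1)) src dst := by
  classical
  obtain ⟨g, hg, hg0⟩ := hfl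
  have hbX : ¬ (src b ∈ X ↔ dst b ∈ X) := (hX b).2 (Or.inl rfl)
  have hloop : src b ≠ dst b := fun h => hbX (by rw [h])
  obtain ⟨D, hD⟩ : ∃ D : V → ℝ, D = fun v =>
      dv (fun e : {e // e ≠ b} => src e) (fun e : {e // e ≠ b} => dst e) g v := ⟨_, rfl⟩
  obtain ⟨κ, hκ⟩ : ∃ κ : V → V, κ = fun v => if v = dst b then src b else v := ⟨_, rfl⟩
  have hmap : ∀ w, ((∑ v, if κ v = w then D v else 0 : ℝ) : AddCircle s) = 0 := by
    intro w
    have h1 := dv_map κ (fun e : {e // e ≠ b} => src e) (fun e : {e // e ≠ b} => dst e) g w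
    have h2 := hg0 w
    rw [hD, ← h1, hκ]
    exact h2
  have hκd : κ (dst b) = src b := by simp [hκ]
  have hκs : κ (src b) = src b := by simp [hκ]
  have hκv : ∀ v, v ≠ dst b → κ v = v := by intro v h; simp [hκ, h]
  have hD0 : ∀ w, w ≠ src b → w ≠ dst b → ((D w : ℝ) : AddCircle s) = 0 := by
    intro w h1 h2
    have h3 := hmap w
    rw [Finset.sum_eq_single w] at h3
    · rw [hκv w h2] at h3
      simpa using h3
    · intro v _ hv
      by_cases h4 : v = dst b
      · rw [h4, hκd, if_neg (Ne.symm h1)]
      · rw [hκv v h4, if_neg hv]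
    · intro h; exact absurd (Finset.mem_univ _) h
  have hD1 : ((D (dst b) : ℝ) : AddCircle s) = -((D (src b) : ℝ) : AddCircle s) := by
    have h3 := hmap (src b)
    rw [← Finset.add_sum_erase _ _ (Finset.mem_univ (src b)),
      ← Finset.add_sum_erase _ _ (Finset.mem_erase.2 ⟨hloop.symm, Finset.mem_univ (dst b)⟩),
      Finset.sum_eq_zero, add_zero, hκd, hκs, if_pos rfl, if_pos rfl, AddCircle.coe_add,
      add_comm] at h3
    · exact eq_neg_of_add_eq_zero_left h3
    · intro v hv
      rw [Finset.mem_erase, Finset.mem_erase] at hv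
      rw [hκv v hv.1, if_neg hv.2.1]
  -- the cut
  let XF : Finset V := Finset.univ.filter (· ∈ X)
  have hXF : ∀ v, v ∈ XF ↔ v ∈ X := by intro v; simp [XF]
  have hcut := rd_cut (fun e : {e // e ≠ b} => src e) (fun e : {e // e ≠ b} => dst e) g XF
  have he₀ : (∑ e : {e // e ≠ b}, g e * ((if src e ∈ XF then (1 : ℝ) else 0) -
      (if dst e ∈ XF then 1 else 0))) = g ⟨e₀, hbe.symm⟩ *
      ((if src e₀ ∈ XF then (1 : ℝ) else 0) - (if dst e₀ ∈ XF then 1 else 0)) := by
    rw [Finset.sum_eq_single (⟨e₀, hbe.symm⟩ : {e // e ≠ b})]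
    · intro e _ hne
      have h1 : ¬ ¬ (src e ∈ X ↔ dst e ∈ X) := by
        rw [hX]
        rintro (h | h)
        · exact e.2 h
        · exact hne (Subtype.ext h)
      rw [not_not] at h1
      simp only [hXF]
      by_cases h2 : src e ∈ X
      · simp [h2, h1.1 h2]
      · have h3 : dst e ∉ X := fun h => h2 (h1.2 h)
        simp [h2, h3]
    · intro h; exact absurd (Finset.mem_univ _) h
  have hsum : ((∑ v ∈ XF, D v : ℝ) : AddCircle s) = ∑ v ∈ XF, ((D v : ℝ) : AddCircle s) :=
    map_sum (QuotientAddGroup.mk' (AddSubgroup.zmultiples s)) D XF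
  have hsum2 : ((D (src b) : ℝ) : AddCircle s) = ((∑ v ∈ XF, D v : ℝ) : AddCircle s) ∨
      ((D (src b) : ℝ) : AddCircle s) = -((∑ v ∈ XF, D v : ℝ) : AddCircle s) := by
    rw [hsum]
    by_cases h1 : src b ∈ X
    · have h2 : dst b ∉ X := fun h => hbX (by simp [h1, h])
      left
      rw [Finset.sum_eq_single (src b)]
      · intro v hv hne
        refine hD0 v hne ?_
        rintro rfl
        exact h2 ((hXF _).1 hv)
      · intro h; exact absurd ((hXF _).2 h1) h
    · have h2 : dst b ∈ X := by
        by_contra h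
        exact hbX (by simp [h1, h])
      right
      rw [Finset.sum_eq_single (dst b), hD1, neg_neg]
      · intro v hv hne
        refine hD0 v ?_ hne
        rintro rfl
        exact h1 ((hXF _).1 hv)
      · intro h; exact absurd ((hXF _).2 h2) h
  have hval : ((∑ v ∈ XF, D v : ℝ) : AddCircle s) = ((g ⟨e₀, hbe.symm⟩ : ℝ) : AddCircle s) ∨
      ((∑ v ∈ XF, D v : ℝ) : AddCircle s) = -((g ⟨e₀, hbe.symm⟩ : ℝ) : AddCircle s) := by
    have h0 : ∑ v ∈ XF, D v = g ⟨e₀, hbe.symm⟩ *
      ((if src e₀ ∈ XF then (1 : ℝ) else 0) - (if dst e₀ ∈ XF then 1 else 0)) := by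
      rw [hD, hcut, he₀]
    have h1 := (hX e₀).2 (Or.inr rfl)
    rw [h0]
    simp only [hXF]
    by_cases h2 : src e₀ ∈ X
    · have h3 : dst e₀ ∉ X := fun h => h1 (by simp [h2, h])
      left; simp [h2, h3]
    · have h3 : dst e₀ ∈ X := by
        by_contra h
        exact h1 (by simp [h2, h])
      right; simp [h2, h3]
  have hr : ∃ r ∈ Ioo 1 (s - 1), ((D (src b) : ℝ) : AddCircle s) + (r : AddCircle s) = 0 := by
    have h1 : ((D (src b) : ℝ) : AddCircle s) = ((g ⟨e₀, hbe.symm⟩ : ℝ) : AddCircle s) ∨
        ((D (src b) : ℝ) : AddCircle s) = -((g ⟨e₀, hbe.symm⟩ : ℝ) : AddCircle s) := by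
      rcases hsum2 with h | h <;> rcases hval with h' | h' <;> rw [h, h'] <;> simp
    rcases h1 with h | h
    · refine ⟨s - g ⟨e₀, hbe.symm⟩, symm_Ioo s _ (hg _), ?_⟩
      rw [h, AddCircle.coe_sub, AddCircle.coe_period]
      abel
    · exact ⟨g ⟨e₀, hbe.symm⟩, hg _, by rw [h]; abel⟩
  obtain ⟨r, hr, hr0⟩ := hr
  refine ⟨ext b g r, ext_mem b g r _ hg hr, fun v => ?_⟩
  rw [dv_ext, AddCircle.coe_add]
  have hDv : dv (fun e : {e // e ≠ b} => src e) (fun e : {e // e ≠ b} => dst e) g v = D v := by
    rw [hD]
  rw [hDv]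
  by_cases h1 : v = src b
  · subst h1
    rw [if_pos rfl, if_neg hloop.symm, sub_zero, mul_one, add_comm]
    exact hr0
  · by_cases h2 : v = dst b
    · subst h2
      rw [if_neg hloop, if_pos rfl, zero_sub, mul_neg, mul_one, AddCircle.coe_neg, hD1,
        ← neg_add, add_comm, hr0, neg_zero]
    · rw [if_neg (Ne.symm h1), if_neg (Ne.symm h2), sub_zero, mul_zero, AddCircle.coe_zero,
        zero_add]
      exact hD0 v h1 h2

/-- contraction of an edge does not create a bridge -/
lemma bridgeless_contract (src dst : E → V) (hbr : Bridgeless src dst) (b : E) :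
    Bridgeless (fun e : {e // e ≠ b} => if src e = dst b then src b else src e)
      (fun e : {e // e ≠ b} => if dst e = dst b then src b else dst e) := by
  rintro Y ⟨e, he, hu⟩
  refine hbr {v | (if v = dst b then src b else v) ∈ Y} ⟨e, he, fun e' he' => ?_⟩
  have hne : e' ≠ b := by
    rintro rfl
    apply he'
    simp only [Set.mem_ofPred_eq, if_true]
    by_cases h : src e' = dst e'
    · simp [h]
    · simp [h]
  have := hu ⟨e', hne⟩ he'
  exact congrArg Subtype.val this

lemma bridgeless_loop (src dst : E → V) (hbr : Bridgeless src dst) (e₀ : E)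
    (h : src e₀ = dst e₀) :
    Bridgeless (fun e : {e // e ≠ e₀} => src e) (fun e : {e // e ≠ e₀} => dst e) := by
  rintro Y ⟨e, he, hu⟩
  refine hbr Y ⟨e, he, fun e' he' => ?_⟩
  have hne : e' ≠ e₀ := by
    rintro rfl
    apply he'
    rw [h]
  have := hu ⟨e', hne⟩ he'
  exact congrArg Subtype.val this

end

theorem base : S_base := by
  intro s hs star V E _ _ _ src dst hbr hno
  classical
  generalize hN : Fintype.card E = N
  induction N using Nat.strong_induction_on generalizing V E with
  | _ N ih =>
    have hE : Nonempty E := by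
      by_contra h
      rw [not_nonempty_iff] at h
      exact hno ⟨fun _ => 2, fun e => isEmptyElim e, fun v => by simp [dv]⟩
    obtain ⟨e₀⟩ := hE
    have hcard : ∀ e : E, Fintype.card {e' // e' ≠ e} < N := by
      intro e
      rw [← hN, Fintype.card_subtype_compl]
      simp only [Fintype.card_unique]
      have : 0 < Fintype.card E := Fintype.card_pos_iff.2 ⟨e⟩
      omega
    by_cases hloop : src e₀ = dst e₀
    · by_cases hfl : MFlow s (Ioo 1 (s - 1)) (fun e : {e // e ≠ e₀} => src e)
        (fun e : {e // e ≠ e₀} => dst e)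
      · exfalso
        obtain ⟨g, hg, hg0⟩ := hfl
        refine hno ⟨ext e₀ g 2, ext_mem e₀ g 2 _ hg ⟨by norm_num, by linarith⟩, fun v => ?_⟩
        rw [dv_ext, hloop, sub_self, mul_zero, zero_add]
        exact hg0 v
      · exact ih _ (hcard e₀) V {e // e ≠ e₀} _ _ (bridgeless_loop src dst hbr e₀ hloop) hfl rfl
    · by_cases hb : Bridgeless (fun e : {e // e ≠ e₀} => src e) (fun e : {e // e ≠ e₀} => dst e)
      · by_cases hfl : MFlow s (Ioo 1 (s - 1)) (fun e : {e // e ≠ e₀} => src e)
          (fun e : {e // e ≠ e₀} => dst e)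
        · obtain ⟨g, hg, hg0⟩ := hfl
          obtain ⟨h, hh⟩ := conn src dst hbr e₀
          refine ⟨{ V := V, E := {e // e ≠ e₀}, src := fun e => src e, dst := fun e => dst e,
                    a := src e₀, b := dst e₀, hab := hloop }, ?_, ?_, ?_⟩
          · exact ⟨g, hg, fun v _ _ => hg0 v, by rw [AddCircle.coe_zero]; exact hg0 _⟩
          · rw [isOpen_iff_mem_nhds]
            rintro x ⟨f, f1, f2, f3⟩
            have hU : {x' : ℝ | ∀ e, f e + (x' - x) * h e ∈ Ioo 1 (s - 1)} ∈ nhds x := by
              have h1 : IsOpen {x' : ℝ | ∀ e, f e + (x' - x) * h e ∈ Ioo 1 (s - 1)} := by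
                have : {x' : ℝ | ∀ e, f e + (x' - x) * h e ∈ Ioo 1 (s - 1)} =
                    ⋂ e, (fun x' : ℝ => f e + (x' - x) * h e) ⁻¹' Ioo 1 (s - 1) := by
                  ext x'; simp
                rw [this]
                exact isOpen_iInter_of_finite fun e => isOpen_Ioo.preimage (by fun_prop)
              exact h1.mem_nhds (by simpa using f1)
            refine Filter.mem_of_superset hU fun x' hx' => ?_
            refine ⟨fun e => f e + (x' - x) * h e, hx', fun v ha hb => ?_, ?_⟩
            · have h1 := hh v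
              rw [if_neg (Ne.symm ha), if_neg (Ne.symm hb), sub_zero] at h1
              have h2 := rd_add (fun e : {e // e ≠ e₀} => src e)
                (fun e : {e // e ≠ e₀} => dst e) f h (x' - x) v
              rw [h1, mul_zero, add_zero] at h2
              have h3 := f2 v ha hb
              simp only at h3 ⊢
              rw [h2]
              exact h3
            · have h1 := hh (src e₀)
              rw [if_pos rfl, if_neg (Ne.symm hloop), sub_zero] at h1
              have h2 := rd_add (fun e : {e // e ≠ e₀} => src e)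
                (fun e : {e // e ≠ e₀} => dst e) f h (x' - x) (src e₀)
              rw [h1, mul_one] at h2
              simp only at f3 ⊢
              rw [h2, AddCircle.coe_add, f3, ← AddCircle.coe_add, add_sub_cancel]
          · rintro x ⟨f, f1, f2, f3⟩
            by_contra hcon
            push Not at hcon
            have hs0 : (0 : ℝ) < s := by linarith
            obtain ⟨r, hr⟩ : ∃ r : ℝ, r = -x - ⌊-x / s⌋ * s := ⟨_, rfl⟩
            have hr1 : 0 ≤ r := by
              have := Int.floor_le (-x / s)
              rw [le_div_iff₀ hs0] at this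
              rw [hr]; linarith
            have hr2 : r < s := by
              have := Int.lt_floor_add_one (-x / s)
              rw [div_lt_iff₀ hs0] at this
              rw [hr]; linarith
            have hrx : (r : AddCircle s) = ((-x : ℝ) : AddCircle s) :=
              coe_eq_iff.2 ⟨-⌊-x / s⌋, by rw [hr]; push_cast; ring⟩
            have hr3 : r ∈ Icc 1 (s - 1) := by
              constructor
              · by_contra h
                refine hcon (-r) (by rw [abs_neg, abs_of_nonneg hr1]; exact not_le.1 h) ?_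
                rw [AddCircle.coe_neg, hrx, AddCircle.coe_neg, neg_neg]
              · by_contra h
                refine hcon (s - r) (by
                  rw [abs_of_nonneg (by linarith)]
                  linarith [not_le.1 h]) ?_
                rw [AddCircle.coe_sub, hrx, AddCircle.coe_period, AddCircle.coe_neg]
                abel
            have hcoe : (r : AddCircle s) = -(x : AddCircle s) := by
              rw [hrx, AddCircle.coe_neg]
            refine hno (star V E src dst ⟨ext e₀ f r, ext_mem e₀ f r _ f1 hr3, fun v => ?_⟩)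
            have hfb := coe_b s (fun e : {e // e ≠ e₀} => src e)
              (fun e : {e // e ≠ e₀} => dst e) f (src e₀) (dst e₀) hloop f2
            simp only at f3 hfb
            rw [dv_ext, AddCircle.coe_add]
            by_cases h1 : v = src e₀
            · subst h1
              rw [if_pos rfl, if_neg (Ne.symm hloop), sub_zero, mul_one, f3, hcoe,
                neg_add_cancel]
            · by_cases h2 : v = dst e₀
              · subst h2
                rw [if_neg hloop, if_pos rfl, zero_sub, mul_neg, mul_one, AddCircle.coe_neg,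
                  hfb, f3, hcoe]
                abel
              · rw [if_neg (Ne.symm h1), if_neg (Ne.symm h2), sub_zero, mul_zero,
                  AddCircle.coe_zero, zero_add]
                exact f2 v h1 h2
        · exact ih _ (hcard e₀) V {e // e ≠ e₀} _ _ hb hfl rfl
      · -- a cut with two edges
        unfold Bridgeless at hb
        rw [not_forall] at hb
        obtain ⟨X, hb⟩ := hb
        rw [not_not] at hb
        obtain ⟨b, hbX, hbu⟩ := hb
        have hX : ∀ e, ¬ (src e ∈ X ↔ dst e ∈ X) ↔ e = (b : E) ∨ e = e₀ := by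
          have h1 : ∀ e, ¬ (src e ∈ X ↔ dst e ∈ X) → e = (b : E) ∨ e = e₀ := by
            intro e he
            by_cases h : e = e₀
            · exact Or.inr h
            · left
              exact congrArg Subtype.val (hbu ⟨e, h⟩ he)
          intro e
          refine ⟨h1 e, ?_⟩
          rintro (h | h)
          · rw [h]; exact hbX
          · rw [h]
            by_contra h2
            refine hbr X ⟨b, hbX, fun e' he' => ?_⟩
            rcases h1 e' he' with h3 | h3
            · exact h3
            · rw [h3] at he'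
              exact absurd h2 he'
        by_cases hfl : MFlow s (Ioo 1 (s - 1))
          (fun e : {e // e ≠ (b : E)} => if src e = dst b then src b else src e)
          (fun e : {e // e ≠ (b : E)} => if dst e = dst b then src b else dst e)
        · exact absurd (uncontract s src dst X b e₀ b.2 hX hfl) hno
        · exact ih _ (hcard b) V {e // e ≠ (b : E)} _ _ (bridgeless_contract src dst hbr b) hfl rfl

end H59.CF
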