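import Mathlib

set_option autoImplicit false

/-!
# Circular flows modulo `s`: definitions (MP_c8786f_co, spectrum of circular flow numbers)

A finite directed multigraph is `src dst : E → V` (loops and isolated vertices allowed). All flows
are taken modulo a real `s ≥ 5`, the value of each edge is a representative in a set `J`; `J` is
`Set.Icc 1 (s - 1)` (closed flows) or `Set.Ioo 1 (s - 1)` (open flows).
-/

namespace H59.CF

variable {V E : Type}

/-- The net outflow of `f` at `v`. -/
def dv [DecidableEq V] [Fintype E] (src dst : E → V) (f : E → ℝ) (v : V) : ℝ :=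
  ∑ e, f e * ((if src e = v then 1 else 0) - (if dst e = v then 1 else 0))

/-- A flow modulo `s` all of whose values are in `J`. -/
def MFlow [DecidableEq V] [Fintype E] (s : ℝ) (J : Set ℝ) (src dst : E → V) : Prop :=
  ∃ f : E → ℝ, (∀ e, f e ∈ J) ∧ ∀ v, ((dv src dst f v : ℝ) : AddCircle s) = 0

/-- A real flow all of whose values have an absolute value in `J`. -/
def RFlow [DecidableEq V] [Fintype E] (J : Set ℝ) (src dst : E → V) : Prop :=
  ∃ f : E → ℝ, (∀ e, |f e| ∈ J) ∧ ∀ v, dv src dst f v = 0

/-- No edge cut has exactly one edge. -/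
def Bridgeless (src dst : E → V) : Prop :=
  ∀ X : Set V, ¬ ∃! e : E, ¬ (src e ∈ X ↔ dst e ∈ X)

/-- A network with two different terminals `a`, `b`. -/
structure Net where
  V : Type
  E : Type
  [fV : Fintype V]
  [fE : Fintype E]
  [dV : DecidableEq V]
  src : E → V
  dst : E → V
  a : V
  b : V
  hab : a ≠ b

attribute [instance] Net.fV Net.fE Net.dV

/-- The numbers `x` such that the network has a flow modulo `s` from `a` to `b` of value `x` whose
values on the edges are in `J` (the condition at `b` follows, see `cap_b`). -/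
def Net.cap (W : Net) (s : ℝ) (J : Set ℝ) : Set ℝ :=
  {x | ∃ f : W.E → ℝ, (∀ e, f e ∈ J) ∧
    (∀ v, v ≠ W.a → v ≠ W.b → ((dv W.src W.dst f v : ℝ) : AddCircle s) = 0) ∧
    ((dv W.src W.dst f W.a : ℝ) : AddCircle s) = (x : AddCircle s)}

end H59.CF
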