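import Pool.Agent.H59.CF.Stm
import Pool.Agent.H59.CF.Desc
import Pool.Graph.R_seed8.TH362.FP.Pos

set_option autoImplicit false

/-!
# Circular flow numbers: from modular flows to the final statements
-/

namespace H59.CF

open Set

/-- Kirchhoff's law. -/
def KFlow {V E R : Type} [DecidableEq V] [Fintype E] [AddCommMonoid R] (src dst : E → V)
    (f : E → R) : Prop :=
  ∀ v : V, ∑ e ∈ Finset.univ.filter (fun e => src e = v), f e
    = ∑ e ∈ Finset.univ.filter (fun e => dst e = v), f e

/-- A circular `r`-flow. -/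
def CFlow {V E : Type} [DecidableEq V] [Fintype E] (r : ℝ) (src dst : E → V) : Prop :=
  ∃ f : E → ℝ, KFlow src dst f ∧ ∀ e, 1 ≤ |f e| ∧ |f e| ≤ r - 1

/-- The edges with exactly one end in `X`. -/
def bdry {V E : Type} [DecidableEq V] [Fintype E] (src dst : E → V) (X : Finset V) : Finset E :=
  Finset.univ.filter (fun e => ¬ (src e ∈ X ↔ dst e ∈ X))

variable {V E : Type} [DecidableEq V] [Fintype E]

lemma kflow_iff (src dst : E → V) (f : E → ℝ) : KFlow src dst f ↔ ∀ v, dv src dst f v = 0 := by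
  unfold KFlow dv
  refine forall_congr' fun v => ?_
  rw [Finset.sum_filter, Finset.sum_filter, ← sub_eq_zero, ← Finset.sum_sub_distrib]
  have : ∀ e, (if src e = v then f e else 0) - (if dst e = v then f e else 0)
      = f e * ((if src e = v then 1 else 0) - (if dst e = v then 1 else 0)) := by
    intro e
    by_cases h1 : src e = v <;> by_cases h2 : dst e = v <;> simp [h1, h2]
  rw [Finset.sum_congr rfl (fun e _ => this e)]

lemma cflow_iff (r : ℝ) (src dst : E → V) : CFlow r src dst ↔ RFlow (Icc 1 (r - 1)) src dst := by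
  unfold CFlow RFlow
  constructor
  · rintro ⟨f, h1, h2⟩
    exact ⟨f, h2, (kflow_iff _ _ _).1 h1⟩
  · rintro ⟨f, h1, h2⟩
    exact ⟨f, (kflow_iff _ _ _).2 h2, h1⟩

/-- an open flow is a closed one with a smaller parameter -/
lemma open_iff (s : ℝ) (src dst : E → V) :
    RFlow (Ioo 1 (s - 1)) src dst ↔ ∃ r < s, CFlow r src dst := by
  constructor
  · rintro ⟨f, h1, h2⟩
    rcases isEmpty_or_nonempty E with hE | hE
    · exact ⟨s - 1, by linarith, f, (kflow_iff _ _ _).2 h2, fun e => isEmptyElim e⟩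
    · obtain ⟨a, ha⟩ := Finite.exists_min (fun e => |f e|)
      obtain ⟨b, hb⟩ := Finite.exists_max (fun e => |f e|)
      have ha1 : 1 < |f a| := (h1 a).1
      have hb1 : |f b| < s - 1 := (h1 b).2
      have ha0 : 0 < |f a| := by linarith
      refine ⟨1 + |f b| / |f a|, ?_, fun e => f e / |f a|, (kflow_iff _ _ _).2 fun v => ?_,
        fun e => ?_⟩
      · have h3 : |f b| / |f a| ≤ |f b| := div_le_self (abs_nonneg _) ha1.le
        linarith
      · have h3 : dv src dst (fun e => f e / |f a|) v = dv src dst f v / |f a| := by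
          unfold dv
          rw [Finset.sum_div]
          exact Finset.sum_congr rfl fun e _ => by ring
        rw [h3, h2, zero_div]
      · rw [abs_div, abs_abs]
        refine ⟨(one_le_div ha0).2 (ha e), ?_⟩
        rw [add_sub_cancel_left]
        exact div_le_div_of_nonneg_right (hb e) ha0.le
  · rintro ⟨r, hr, f, h1, h2⟩
    rcases isEmpty_or_nonempty E with hE | ⟨⟨e₀⟩⟩
    · exact ⟨f, fun e => isEmptyElim e, (kflow_iff _ _ _).1 h1⟩
    · have hr2 : 1 ≤ r - 1 := (h2 e₀).1.trans (h2 e₀).2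
      obtain ⟨c, hc⟩ : ∃ c : ℝ, c = ((s - 1) / (r - 1) + 1) / 2 := ⟨_, rfl⟩
      have h3 : 1 < (s - 1) / (r - 1) := by
        rw [one_lt_div (by linarith)]
        linarith
      have hc1 : 1 < c := by rw [hc]; linarith
      have hc2 : c * (r - 1) < s - 1 := by
        have h4 : (s - 1) / (r - 1) * (r - 1) = s - 1 := div_mul_cancel₀ _ (by linarith)
        have h5 : c * (r - 1) = ((s - 1) / (r - 1) * (r - 1) + (r - 1)) / 2 := by rw [hc]; ring
        rw [h5, h4]
        linarith
      refine ⟨fun e => c * f e, fun e => ?_, fun v => ?_⟩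
      · rw [abs_mul, abs_of_pos (by linarith : (0 : ℝ) < c)]
        obtain ⟨h4, h5⟩ := h2 e
        constructor
        · nlinarith
        · exact lt_of_le_of_lt (mul_le_mul_of_nonneg_left h5 (by linarith)) hc2
      · have h4 : dv src dst (fun e => c * f e) v = c * dv src dst f v := by
          unfold dv
          rw [Finset.mul_sum]
          exact Finset.sum_congr rfl fun e _ => by ring
        rw [h4, (kflow_iff _ _ _).1 h1, mul_zero]

/-- the net outflow of a set of vertices -/
lemma cut_sum (src dst : E → V) (f : E → ℝ) (X : Finset V) :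
    ∑ v ∈ X, dv src dst f v =
      ∑ e, f e * ((if src e ∈ X then 1 else 0) - (if dst e ∈ X then 1 else 0)) := by
  unfold dv
  rw [Finset.sum_comm]
  refine Finset.sum_congr rfl fun e _ => ?_
  rw [← Finset.mul_sum, Finset.sum_sub_distrib]
  congr 2
  · rw [Finset.sum_ite_eq]
  · rw [Finset.sum_ite_eq]

lemma bridgeless_of_cflow (r : ℝ) (src dst : E → V) (h : CFlow r src dst) (X : Finset V) :
    (bdry src dst X).card ≠ 1 := by
  intro h1
  obtain ⟨f, hf, hf1⟩ := h
  rw [Finset.card_eq_one] at h1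
  obtain ⟨e₀, he⟩ := h1
  have h2 := cut_sum src dst f X
  rw [Finset.sum_eq_zero (fun v _ => (kflow_iff _ _ _).1 hf v)] at h2
  have h3 : ∀ e, ¬ (src e ∈ X ↔ dst e ∈ X) ↔ e = e₀ := by
    intro e
    have := Finset.ext_iff.1 he e
    simpa [bdry] using this
  rw [Finset.sum_eq_single e₀] at h2
  · have h4 := (h3 e₀).2 rfl
    have h5 : f e₀ = 0 := by
      by_cases h6 : src e₀ ∈ X <;> by_cases h7 : dst e₀ ∈ X
      · exact absurd (by tauto) h4
      · simp [h6, h7] at h2; exact h2.symm
      · simp [h6, h7] at h2; exact h2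
      · exact absurd (by tauto) h4
    have := (hf1 e₀).1
    rw [h5, abs_zero] at this
    linarith
  · intro e _ hne
    have h4 : (src e ∈ X ↔ dst e ∈ X) := by
      by_contra h5
      exact hne ((h3 e).1 h5)
    by_cases h6 : src e ∈ X
    · simp [h6, h4.1 h6]
    · have h7 : dst e ∉ X := fun h => h6 (h4.2 h)
      simp [h6, h7]
  · intro h; exact absurd (Finset.mem_univ _) h

omit [Fintype E] [DecidableEq V] in
lemma bridgeless_iff [Fintype V] [DecidableEq V] [Fintype E] (src dst : E → V) :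
    Bridgeless src dst ↔ ∀ X : Finset V, (bdry src dst X).card ≠ 1 := by
  classical
  constructor
  · intro h X h1
    refine h (X : Set V) ?_
    rw [Finset.card_eq_one] at h1
    obtain ⟨e₀, he⟩ := h1
    have h3 : ∀ e, ¬ (src e ∈ X ↔ dst e ∈ X) ↔ e = e₀ := by
      intro e
      have := Finset.ext_iff.1 he e
      simpa [bdry] using this
    exact ⟨e₀, by simpa using (h3 e₀).2 rfl, fun e h4 => (h3 e).1 (by simpa using h4)⟩
  · intro h X ⟨e₀, h1, h2⟩
    refine h X.toFinset ?_
    rw [Finset.card_eq_one]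
    refine ⟨e₀, Finset.ext fun e => ?_⟩
    simp only [bdry, Finset.mem_filter, Finset.mem_univ, true_and, Set.mem_toFinset,
      Finset.mem_singleton]
    exact ⟨fun h3 => h2 e h3, fun h3 => h3 ▸ h1⟩

/-- rounding of circular flows -/
lemma int_of_cflow [Fintype V] (hround : S_round) (k : ℕ) (src dst : E → V)
    (h : CFlow ((k : ℝ) + 1) src dst) :
    ∃ F : E → ℤ, KFlow src dst F ∧ ∀ e, 1 ≤ |F e| ∧ |F e| ≤ k := by
  obtain ⟨f, hf, hf1⟩ := h
  have h0 := (kflow_iff _ _ _).1 hf
  rcases isEmpty_or_nonempty E with hE | ⟨⟨e₀⟩⟩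
  · refine ⟨fun _ => 0, fun v => ?_, fun e => isEmptyElim e⟩
    simp
  obtain ⟨z, hz1, hz2, -⟩ := hround V E src dst f e₀ (fun v => ⟨0, by rw [h0]; simp⟩)
  refine ⟨z, ?_, fun e => ?_⟩
  · have h3 : KFlow src dst (fun e => (z e : ℝ)) :=
      (kflow_iff _ _ _).2 fun v => by rw [hz1, h0]
    intro v
    have h4 := h3 v
    simp only at h4
    exact_mod_cast h4
  · obtain ⟨h3, h4⟩ := hz2 e
    obtain ⟨h5, h6⟩ := hf1 e
    rw [add_sub_cancel_right] at h6
    rcases abs_cases (f e) with ⟨h7, h8⟩ | ⟨h7, h8⟩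
    · rw [h7] at h5 h6
      have h9 : (1 : ℤ) ≤ ⌊f e⌋ := Int.le_floor.2 (by exact_mod_cast h5)
      have h10 : ⌈f e⌉ ≤ (k : ℤ) := Int.ceil_le.2 (by exact_mod_cast h6)
      rw [abs_of_pos (by omega)]
      omega
    · rw [h7] at h5 h6
      have h9 : -(k : ℤ) ≤ ⌊f e⌋ := Int.le_floor.2 (by push_cast; linarith)
      have h10 : ⌈f e⌉ ≤ (-1 : ℤ) := Int.ceil_le.2 (by push_cast; linarith)
      rw [abs_of_neg (by omega)]
      omega

lemma cflow_of_int (k : ℕ) (src dst : E → V) (F : E → ℤ) (h : KFlow src dst F)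
    (h1 : ∀ e, 1 ≤ |F e| ∧ |F e| ≤ k) : CFlow ((k : ℝ) + 1) src dst := by
  refine ⟨fun e => (F e : ℝ), fun v => ?_, fun e => ?_⟩
  · simp only
    exact_mod_cast h v
  · obtain ⟨h2, h3⟩ := h1 e
    rw [add_sub_cancel_right]
    simp only
    constructor
    · exact_mod_cast h2
    · exact_mod_cast h3

/-- the circular flow number is attained -/
lemma exists_gt (s : ℝ) (src dst : E → V) (h : ¬ CFlow s src dst) :
    ∃ r : ℝ, s < r ∧ ¬ CFlow r src dst := by
  by_contra hcon
  push Not at hcon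
  apply h
  let K : ℕ → Set (E → ℝ) := fun n => {f | KFlow src dst f ∧ ∀ e, 1 ≤ |f e| ∧
    |f e| ≤ s + 1 / ((n : ℝ) + 1) - 1}
  have hclosed : ∀ n, IsClosed (K n) := by
    intro n
    have h1 : K n = {f | ∀ v, dv src dst f v = 0} ∩
        ⋂ e, {f | 1 ≤ |f e|} ∩ {f | |f e| ≤ s + 1 / ((n : ℝ) + 1) - 1} := by
      ext f
      simp only [K, Set.mem_ofPred_eq, Set.mem_inter_iff, Set.mem_iInter, kflow_iff]
    rw [h1]
    refine IsClosed.inter ?_ (isClosed_iInter fun e => IsClosed.inter ?_ ?_)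
    · have h2 : {f : E → ℝ | ∀ v, dv src dst f v = 0} = ⋂ v, {f | dv src dst f v = 0} := by
        ext f; simp
      rw [h2]
      refine isClosed_iInter fun v => isClosed_eq ?_ continuous_const
      unfold dv
      fun_prop
    · exact isClosed_le continuous_const (by fun_prop)
    · exact isClosed_le (by fun_prop) continuous_const
  have hanti : ∀ n, K (n + 1) ⊆ K n := by
    rintro n f ⟨h1, h2⟩
    refine ⟨h1, fun e => ⟨(h2 e).1, (h2 e).2.trans ?_⟩⟩
    have : (1 : ℝ) / (((n + 1 : ℕ) : ℝ) + 1) ≤ 1 / ((n : ℝ) + 1) := by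
      apply one_div_le_one_div_of_le (by positivity)
      push_cast
      linarith
    linarith
  have hne : ∀ n, (K n).Nonempty := by
    intro n
    obtain ⟨f, h1, h2⟩ := hcon (s + 1 / ((n : ℝ) + 1)) (by
      have : (0 : ℝ) < 1 / ((n : ℝ) + 1) := by positivity
      linarith)
    exact ⟨f, h1, h2⟩
  have hcomp : IsCompact (K 0) := by
    refine IsCompact.of_isClosed_subset
      (isCompact_univ_pi (fun _ : E => isCompact_Icc (a := -(s + 1)) (b := s + 1))) (hclosed 0) ?_
    rintro f ⟨_, h2⟩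
    rw [Set.mem_univ_pi]
    intro e
    have h3 := (h2 e).2
    have h4 : |f e| ≤ s + 1 := by
      norm_num at h3
      linarith
    exact abs_le.1 h4
  obtain ⟨f, hf⟩ := IsCompact.nonempty_iInter_of_sequence_nonempty_isCompact_isClosed K hanti hne
    hcomp hclosed
  rw [Set.mem_iInter] at hf
  refine ⟨f, (hf 0).1, fun e => ⟨((hf 0).2 e).1, ?_⟩⟩
  refine le_of_forall_pos_le_add fun ε hε => ?_
  obtain ⟨n, hn⟩ := exists_nat_one_div_lt hε
  have := ((hf n).2 e).2
  linarith

end H59.CF
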