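import Pool.Agent.H59.CF.Stm

set_option autoImplicit false

/-!
# Real and modular flows, integrality of the closed capacities
-/

namespace H59.CF

section

variable {V E : Type} [DecidableEq V] [Fintype E]

lemma mi_dv_add (src dst : E → V) (f g : E → ℝ) (v : V) :
    dv src dst (fun e => f e + g e) v = dv src dst f v + dv src dst g v := by
  simp only [dv, add_mul, Finset.sum_add_distrib]

lemma mi_dv_mul (src dst : E → V) (c : ℝ) (f : E → ℝ) (v : V) :
    dv src dst (fun e => c * f e) v = c * dv src dst f v := by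
  simp only [dv, mul_assoc, Finset.mul_sum]

lemma mi_dv_int (src dst : E → V) (z : E → ℤ) (v : V) :
    ∃ k : ℤ, dv src dst (fun e => (z e : ℝ)) v = k := by
  refine ⟨∑ e, z e * ((if src e = v then 1 else 0) - (if dst e = v then 1 else 0)), ?_⟩
  simp only [dv]
  push_cast
  rfl

lemma mi_sum_dv [Fintype V] (src dst : E → V) (f : E → ℝ) : ∑ v, dv src dst f v = 0 := by
  simp only [dv]
  rw [Finset.sum_comm]
  apply Finset.sum_eq_zero
  intro e _
  rw [← Finset.mul_sum, Finset.sum_sub_distrib]
  simp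

lemma mi_to (src dst : E → V) {s : ℝ} {J : Set ℝ} (hJ : ∀ x ∈ J, s - x ∈ J)
    (h : RFlow J src dst) : MFlow s J src dst := by
  classical
  obtain ⟨f, hf, hv⟩ := h
  refine ⟨fun e => f e + s * ((if f e < 0 then 1 else 0 : ℤ) : ℝ), ?_, ?_⟩
  · intro e
    by_cases h : f e < 0
    · have h1 := hJ _ (hf e)
      rw [abs_of_neg h] at h1
      have h2 : f e + s * ((if f e < 0 then 1 else 0 : ℤ) : ℝ) = s - -f e := by
        rw [if_pos h]; push_cast; ring
      simp only [h2]
      exact h1
    · have h1 := hf e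
      rw [abs_of_nonneg (not_lt.1 h)] at h1
      have h2 : f e + s * ((if f e < 0 then 1 else 0 : ℤ) : ℝ) = f e := by
        rw [if_neg h]; push_cast; ring
      simp only [h2]
      exact h1
  · intro v
    rw [mi_dv_add, mi_dv_mul, hv, zero_add]
    obtain ⟨k, hk⟩ := mi_dv_int src dst (fun e => if f e < 0 then 1 else 0) v
    rw [hk, AddCircle.coe_eq_zero_iff]
    exact ⟨k, by rw [zsmul_eq_mul, mul_comm]⟩

lemma mi_from [Fintype V] (hR : S_round) (src dst : E → V) {s : ℝ} (hs : 0 < s) {J : Set ℝ}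
    (hJ : ∀ x ∈ J, s - x ∈ J) (hJ' : ∀ x ∈ J, 0 < x ∧ x < s)
    (h : MFlow s J src dst) : RFlow J src dst := by
  classical
  obtain ⟨f, hf, hv⟩ := h
  rcases isEmpty_or_nonempty E with hE | ⟨⟨e₀⟩⟩
  · exact ⟨fun _ => 0, fun e => (hE.false e).elim, fun v => by simp [dv]⟩
  have hk : ∀ v, ∃ k : ℤ, dv src dst (fun e => s⁻¹ * f e) v = k := by
    intro v
    obtain ⟨n, hn⟩ := (AddCircle.coe_eq_zero_iff s).1 (hv v)
    refine ⟨n, ?_⟩
    rw [mi_dv_mul, ← hn, zsmul_eq_mul]
    field_simp
  obtain ⟨z, hz1, hz2, -⟩ := hR V E src dst _ e₀ hk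
  refine ⟨fun e => f e + (-s) * z e, ?_, ?_⟩
  · intro e
    obtain ⟨h1, h2⟩ := hJ' _ (hf e)
    have h3 : 0 < s⁻¹ * f e := by positivity
    have h4 : s⁻¹ * f e < 1 := by
      rw [inv_mul_lt_iff₀ hs, mul_one]
      exact h2
    obtain ⟨h5, h6⟩ := hz2 e
    have h7 : ⌊s⁻¹ * f e⌋ = 0 := by
      rw [Int.floor_eq_iff]
      push_cast
      constructor <;> linarith
    have h8 : ⌈s⁻¹ * f e⌉ = 1 := by
      rw [Int.ceil_eq_iff]
      push_cast
      constructor <;> linarith
    rw [h7] at h5
    rw [h8] at h6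
    have h9 : z e = 0 ∨ z e = 1 := by omega
    rcases h9 with h9 | h9
    · have h10 : |f e + -s * (z e : ℝ)| = f e := by
        rw [h9]
        push_cast
        rw [mul_zero, add_zero, abs_of_pos h1]
      simp only [h10]
      exact hf e
    · have h10 : |f e + -s * (z e : ℝ)| = s - f e := by
        rw [h9]
        push_cast
        rw [abs_of_neg (by linarith)]
        ring
      simp only [h10]
      exact hJ _ (hf e)
  · intro v
    rw [mi_dv_add, mi_dv_mul, hz1, mi_dv_mul]
    field_simp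
    ring

end

theorem mod_of (h : S_round) : S_mod := by
  intro V E _ _ _ src dst s hs
  refine ⟨⟨mi_to src dst ?_, mi_from h src dst (by linarith) ?_ ?_⟩,
    ⟨mi_to src dst ?_, mi_from h src dst (by linarith) ?_ ?_⟩⟩
  all_goals
    rintro x ⟨h1, h2⟩
    constructor <;> linarith

theorem int_of (h : S_round) : S_int := by
  intro W P q hq hP x hx k hk1 hk2
  obtain ⟨f, hf, hv, ha⟩ := hx
  have hqr : (0 : ℝ) < q := by exact_mod_cast hq
  set s : ℝ := (P : ℝ) / q with hs
  have hqs : (q : ℝ) * s = P := by rw [hs]; field_simp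
  -- the condition at the second terminal
  have hb : ((dv W.src W.dst f W.b + x : ℝ) : AddCircle s) = 0 := by
    have h1 := mi_sum_dv W.src W.dst f
    have h2 : ((∑ v, dv W.src W.dst f v : ℝ) : AddCircle s) = 0 := by
      rw [h1]; rfl
    have h3 : ((∑ v, dv W.src W.dst f v : ℝ) : AddCircle s)
        = ∑ v, ((dv W.src W.dst f v : ℝ) : AddCircle s) :=
      map_sum (QuotientAddGroup.mk' (AddSubgroup.zmultiples s)) _ _
    rw [h3, ← Finset.add_sum_erase _ _ (Finset.mem_univ W.a),
      ← Finset.add_sum_erase _ _ (Finset.mem_erase.2 ⟨W.hab.symm, Finset.mem_univ W.b⟩),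
      Finset.sum_eq_zero, add_zero, ha] at h2
    · rw [AddCircle.coe_add, add_comm]
      exact h2
    · intro v hv'
      rw [Finset.mem_erase, Finset.mem_erase] at hv'
      exact hv v hv'.2.1 hv'.1
  let src' : Option W.E → W.V := fun e => e.elim W.b W.src
  let dst' : Option W.E → W.V := fun e => e.elim W.a W.dst
  have hdv : ∀ (y : Option W.E → ℝ) (v : W.V), dv src' dst' y v =
      y none * ((if W.b = v then 1 else 0) - (if W.a = v then 1 else 0)) +
        dv W.src W.dst (fun e => y (some e)) v := by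
    intro y v
    simp only [dv, Fintype.sum_option, src', dst', Option.elim]
    rfl
  let y : Option W.E → ℝ := fun e => e.elim (q * x) (fun e => q * f e)
  have hy : ∀ v, dv src' dst' y v = q * (x * ((if W.b = v then 1 else 0) -
      (if W.a = v then 1 else 0)) + dv W.src W.dst f v) := by
    intro v
    rw [hdv]
    simp only [y, Option.elim]
    rw [mi_dv_mul]
    ring
  have hmod : ∀ v, ((x * ((if W.b = v then 1 else 0) - (if W.a = v then 1 else 0)) +
      dv W.src W.dst f v : ℝ) : AddCircle s) = 0 := by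
    intro v
    by_cases h1 : v = W.a
    · subst h1
      rw [if_neg W.hab.symm, if_pos rfl, AddCircle.coe_add, ha, ← AddCircle.coe_add]
      norm_num
    · by_cases h2 : v = W.b
      · subst h2
        rw [if_pos rfl, if_neg W.hab, sub_zero, mul_one, add_comm]
        exact hb
      · rw [if_neg (Ne.symm h2), if_neg (Ne.symm h1), sub_zero, mul_zero, zero_add]
        exact hv v h1 h2
  have hk : ∀ v, ∃ k : ℤ, dv src' dst' y v = k := by
    intro v
    obtain ⟨n, hn⟩ := (AddCircle.coe_eq_zero_iff s).1 (hmod v)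
    refine ⟨n * P, ?_⟩
    rw [hy, ← hn, zsmul_eq_mul]
    push_cast
    rw [← hqs]
    ring
  obtain ⟨z, hz1, hz2, hz3⟩ := h W.V (Option W.E) src' dst' y none hk
  have hz4 : z none = k + 1 := by
    rw [hz3]
    simp only [y, Option.elim]
    rw [Int.ceil_eq_iff]
    push_cast
    constructor <;> linarith
  have hkey : ∀ v, dv W.src W.dst (fun e => (q : ℝ)⁻¹ * (z (some e) : ℝ)) v =
      dv W.src W.dst f v + (x - ((k : ℝ) + 1) / q) * ((if W.b = v then 1 else 0) -
        (if W.a = v then 1 else 0)) := by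
    intro v
    have h1 := hz1 v
    rw [hy, hdv, hz4] at h1
    push_cast at h1
    rw [mi_dv_mul]
    field_simp
    linarith
  refine ⟨fun e => (q : ℝ)⁻¹ * (z (some e) : ℝ), ?_, ?_, ?_⟩
  · intro e
    obtain ⟨h1, h2⟩ := hf e
    obtain ⟨h3, h4⟩ := hz2 (some e)
    simp only [y, Option.elim] at h3 h4
    have h5 : (q : ℤ) ≤ z (some e) := by
      refine le_trans ?_ h3
      rw [Int.le_floor]
      push_cast
      nlinarith
    have h6 : z (some e) ≤ (P : ℤ) - q := by
      refine le_trans h4 ?_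
      rw [Int.ceil_le]
      push_cast
      rw [← hqs]
      nlinarith
    have h5' : (q : ℝ) ≤ z (some e) := by exact_mod_cast h5
    have h6' : (z (some e) : ℝ) ≤ (P : ℝ) - q := by exact_mod_cast h6
    constructor
    · rw [le_inv_mul_iff₀ hqr, mul_one]
      exact h5'
    · rw [inv_mul_le_iff₀ hqr, mul_sub, hqs, mul_one]
      exact h6'
  · intro v h1 h2
    rw [hkey, if_neg (Ne.symm h2), if_neg (Ne.symm h1), sub_zero, mul_zero, add_zero]
    exact hv v h1 h2
  · rw [hkey, if_neg W.hab.symm, if_pos rfl, AddCircle.coe_add, ha, ← AddCircle.coe_add]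
    congr 1
    ring

end H59.CF
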