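import Pool.Agent.H59.CF.Fin

set_option autoImplicit false

/-!
# Circular flow numbers are rational
-/

namespace H59.CF

open Set Filter Topology

/-- a `ℚ`-linear functional -/
lemma functional (s : ℝ) (hs : ∀ q : ℚ, (q : ℝ) ≠ s) :
    ∃ φ : ℝ →ₗ[ℚ] ℝ, φ 1 = 0 ∧ φ s = -1 := by
  have h1 : s ∉ Submodule.span ℚ {(1 : ℝ)} := by
    intro h
    obtain ⟨q, hq⟩ := Submodule.mem_span_singleton.1 h
    apply hs q
    rw [← hq, Rat.smul_one_eq_cast]
  obtain ⟨f, hf, hf0⟩ := Submodule.exists_dual_map_eq_bot_of_notMem h1 inferInstance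
  have hf1 : f 1 = 0 := by
    have : f 1 ∈ Submodule.map f (Submodule.span ℚ {(1 : ℝ)}) :=
      Submodule.mem_map_of_mem (Submodule.mem_span_singleton_self _)
    rw [hf0] at this
    exact (Submodule.mem_bot ℚ).1 this
  let c : ℚ →ₗ[ℚ] ℝ := LinearMap.toSpanSingleton ℚ ℝ (-((f s : ℝ))⁻¹)
  refine ⟨c.comp f, ?_, ?_⟩
  · simp [hf1]
  · have h2 : ((f s : ℚ) : ℝ) ≠ 0 := by exact_mod_cast hf
    simp only [c, LinearMap.comp_apply, LinearMap.toSpanSingleton_apply, Rat.smul_def]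
    rw [mul_neg, mul_inv_cancel₀ h2]

lemma near_abs {a b s : ℝ} (hs : 2 < s) (h1 : 1 < |a|) (h2 : |a| < s - 1) :
    ∀ᶠ t in 𝓝[>] (0 : ℝ), 1 ≤ |a + t * b| ∧ |a + t * b| ≤ s - t - 1 := by
  have hc1 : Tendsto (fun t : ℝ => |a + t * b|) (𝓝[>] 0) (𝓝 |a|) := by
    have : Tendsto (fun t : ℝ => |a + t * b|) (𝓝 0) (𝓝 |a + 0 * b|) :=
      (Continuous.tendsto (by fun_prop) 0)
    rw [zero_mul, add_zero] at this
    exact this.mono_left nhdsWithin_le_nhds
  have hc2 : Tendsto (fun t : ℝ => s - t - 1 - |a + t * b|) (𝓝[>] 0) (𝓝 (s - 1 - |a|)) := by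
    have : Tendsto (fun t : ℝ => s - t - 1 - |a + t * b|) (𝓝 0)
        (𝓝 (s - 0 - 1 - |a + 0 * b|)) :=
      (Continuous.tendsto (by fun_prop) 0)
    rw [zero_mul, add_zero, sub_zero] at this
    exact this.mono_left nhdsWithin_le_nhds
  filter_upwards [hc1.eventually (lt_mem_nhds h1),
    hc2.eventually (lt_mem_nhds (show (0 : ℝ) < s - 1 - |a| by linarith))] with t h3 h4
  exact ⟨h3.le, by linarith⟩

variable {V E : Type} [DecidableEq V] [Fintype E]

theorem rational (s : ℝ) (src dst : E → V) (h1 : CFlow s src dst)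
    (h2 : ∀ r < s, ¬ CFlow r src dst) : ∃ q : ℚ, (q : ℝ) = s := by
  by_contra hcon
  push Not at hcon
  obtain ⟨φ, hφ1, hφs⟩ := functional s hcon
  obtain ⟨f, hf, hf1⟩ := h1
  rcases isEmpty_or_nonempty E with hE | ⟨⟨e₀⟩⟩
  · exact h2 (s - 1) (by linarith) ⟨f, hf, fun e => isEmptyElim e⟩
  have hs2 : 2 < s := by
    have h3 := (hf1 e₀).1.trans (hf1 e₀).2
    refine lt_of_le_of_ne (by linarith) ?_
    have := hcon 2
    push_cast at this
    exact this
  have hφs1 : φ (s - 1) = -1 := by rw [map_sub, hφ1, hφs, sub_zero]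
  have hev : ∀ e, ∀ᶠ t in 𝓝[>] (0 : ℝ), 1 ≤ |f e + t * φ (f e)| ∧
      |f e + t * φ (f e)| ≤ s - t - 1 := by
    intro e
    obtain ⟨h3, h4⟩ := hf1 e
    have hpos : ∀ᶠ t in 𝓝[>] (0 : ℝ), 0 < t := eventually_mem_nhdsWithin
    have hsmall : ∀ᶠ t in 𝓝[>] (0 : ℝ), t < s - 2 := by
      have : ∀ᶠ t in 𝓝 (0 : ℝ), t < s - 2 := gt_mem_nhds (by linarith)
      exact this.filter_mono nhdsWithin_le_nhds
    rcases eq_or_lt_of_le h3 with h5 | h5
    · -- value one
      have h6 : φ (f e) = 0 := by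
        rcases abs_choice (f e) with h | h
        · rw [h] at h5; rw [← h5, hφ1]
        · rw [h] at h5
          have : f e = -1 := by linarith
          rw [this, map_neg, hφ1, neg_zero]
      filter_upwards [hsmall] with t ht
      rw [h6, mul_zero, add_zero, ← h5]
      exact ⟨le_rfl, by linarith⟩
    · rcases eq_or_lt_of_le h4 with h6 | h6
      · filter_upwards [hpos, hsmall] with t ht0 ht
        have h7 : |f e + t * φ (f e)| = s - t - 1 := by
          rcases abs_choice (f e) with h | h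
          · rw [h] at h6
            rw [h6, hφs1, abs_of_pos (by linarith)]
            ring
          · rw [h] at h6
            have h8 : f e = -(s - 1) := by linarith
            rw [h8, map_neg, hφs1, abs_of_neg (by linarith)]
            ring
        rw [h7]
        exact ⟨by linarith, le_rfl⟩
      · exact near_abs hs2 h5 h6
  have hall := (eventually_all.2 hev).and
    (eventually_mem_nhdsWithin : ∀ᶠ t in 𝓝[>] (0 : ℝ), t ∈ Ioi (0 : ℝ))
  obtain ⟨t, ht, ht0⟩ := hall.exists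
  refine h2 (s - t) (by linarith [show (0 : ℝ) < t from ht0]) ⟨fun e => f e + t * φ (f e), ?_, ht⟩
  intro v
  have h3 := hf v
  have h4 := congrArg φ h3
  rw [map_sum, map_sum] at h4
  simp only
  rw [Finset.sum_add_distrib, Finset.sum_add_distrib, ← Finset.mul_sum, ← Finset.mul_sum, h3, h4]

end H59.CF
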