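import Pool.Agent.H59.CF.Defs

set_option autoImplicit false

/-!
# Fixed statements of the modules

`S_round` -> `S_mod`, `S_int`;  `S_par`, `S_ser`, `S_edge`;  `S_base`;  `S_desc`;  `S_main`.
-/

namespace H59.CF

/-- ROUNDING. A real vector with integral net outflows can be rounded to an integral vector with the
same net outflows, between floor and ceiling, and one prescribed edge can be rounded up.
Proof: induction on the number of edges with `y e ∉ ℤ`. Let `e₁` be such an edge, `e₁ = e₀` if `e₀` is
one. There is `c : E → ℝ` with `c e₁ = 1`, support in the fractional edges and `dv c = 0`: let `X` be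
the set of the vertices `w` such that some `h`, supported on fractional edges different from `e₁`, has
`dv h = 1_{dst e₁} - 1_w`; if `src e₁ ∈ X` take `c = 1_{e₁} + h`; otherwise sum `dv y` over `X`: all
edges of the cut of `X` other than `e₁` are integral, so `y e₁` is an integer, contradiction. Take the
largest `t ≥ 0` such that `y + t c` is between floor and ceiling of `y`; some fractional edge becomes
integral; apply the induction hypothesis to `y + t c`. -/
def S_round : Prop :=
  ∀ (V E : Type) [Fintype V] [DecidableEq V] [Fintype E] (src dst : E → V) (y : E → ℝ) (e₀ : E),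
    (∀ v, ∃ k : ℤ, dv src dst y v = k) →
    ∃ z : E → ℤ, (∀ v, dv src dst (fun e => (z e : ℝ)) v = dv src dst y v) ∧
      (∀ e, ⌊y e⌋ ≤ z e ∧ z e ≤ ⌈y e⌉) ∧ z e₀ = ⌈y e₀⌉

/-- REAL AND MODULAR FLOWS (`J` closed or open). `→`: add `s` to the negative values.
`←`: round `f / s`, whose values are in `(0, 1)`, to a 0-1-vector `χ` and take `f - s χ`. -/
def S_mod : Prop :=
  ∀ (V E : Type) [Fintype V] [DecidableEq V] [Fintype E] (src dst : E → V) (s : ℝ), 2 < s →
    (RFlow (Set.Icc 1 (s - 1)) src dst ↔ MFlow s (Set.Icc 1 (s - 1)) src dst) ∧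
    (RFlow (Set.Ioo 1 (s - 1)) src dst ↔ MFlow s (Set.Ioo 1 (s - 1)) src dst)

/-- INTEGRALITY of the closed capacities for `s = P / q`. Add an edge `e₀` from `b` to `a` with the
value `x`, multiply by `q`, round with `e₀` rounded up, divide by `q`. -/
def S_int : Prop :=
  ∀ (W : Net) (P q : ℕ), 0 < q → 2 * q < P →
    ∀ x ∈ W.cap ((P : ℝ) / q) (Set.Icc 1 ((P : ℝ) / q - 1)), ∀ k : ℤ,
      (k : ℝ) < q * x → q * x < k + 1 →
      ((k : ℝ) + 1) / q ∈ W.cap ((P : ℝ) / q) (Set.Icc 1 ((P : ℝ) / q - 1))

/-- PARALLEL COMPOSITION: on `V₁ ⊕ V₂` redirect the ends `inr a₂`, `inr b₂` to `inl a₁`, `inl b₁`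
(the two vertices `inr a₂`, `inr b₂` stay isolated). -/
def S_par : Prop :=
  ∀ W₁ W₂ : Net, ∃ W : Net, ∀ (s : ℝ) (J : Set ℝ),
    W.cap s J = {x : ℝ | ∃ x₁ ∈ W₁.cap s J, ∃ x₂ ∈ W₂.cap s J, x = x₁ + x₂}

/-- SERIES COMPOSITION: redirect `inr a₂` to `inl b₁`. -/
def S_ser : Prop :=
  ∀ W₁ W₂ : Net, ∃ W : Net, ∀ (s : ℝ) (J : Set ℝ), W.cap s J = W₁.cap s J ∩ W₂.cap s J

/-- ONE EDGE. -/
def S_edge : Prop :=
  ∃ W : Net, ∀ (s : ℝ) (J : Set ℝ),
    W.cap s J = {x : ℝ | ∃ y ∈ J, (x : AddCircle s) = (y : AddCircle s)}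

/-- BASE. If closed flows modulo `s` always imply open ones, then a bridgeless graph without an open
flow gives a network whose set of open capacities is open and contains `0` and whose closed capacities
are in `(-1, 1) + s ℤ`.
Proof: take such a graph `G` with as few edges as possible (over all finite types; strong induction on
`Fintype.card E`). It has an edge `e₀`, and `e₀` is not a loop (else `G - e₀`, value `2` on `e₀`).
`G - e₀` is bridgeless: otherwise there are `X` and `b ≠ e₀` such that `b`, `e₀` are the edges of the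
cut of `X`; contract `b`, i.e. compose `src`, `dst` (restricted to the edges `≠ b`) with the map which
sends `dst b` to `src b`; cuts of the contraction are cuts of `G` without `b`, so it is bridgeless and
has an open flow `g` by minimality; give `b` the value which repairs the two ends of `b`; the cut `X`
shows that it is `±` the value of `e₀` modulo `s`, take its representative in `(1, s - 1)`. So `G` has
an open flow, contradiction. Hence `G - e₀` has an open flow `f` by minimality. Let
`W = (G - e₀; src e₀, dst e₀)`. There is `h : E → ℝ`, zero at `e₀`, with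
`dv h = 1_{src e₀} - 1_{dst e₀}`: let `X` be the set of `w` such that such an `h` exists for `w`
instead of `dst e₀`; if `dst e₀ ∉ X`, then `e₀` is the only edge of the cut of `X`. So
`0` is an open capacity (use `f`), and if `x` is one (by `f'`), then so is every `x'` near `x` (by
`f' + (x' - x) h`). If a closed capacity `x` had a representative
in `[1, s - 1]`, then `e₀` could be given the value `≡ -x` and `G` would have a closed flow modulo
`s`, hence an open one. -/
def S_base : Prop :=
  ∀ s : ℝ, 5 ≤ s →
    (∀ (V E : Type) [Fintype V] [DecidableEq V] [Fintype E] (src dst : E → V),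
      MFlow s (Set.Icc 1 (s - 1)) src dst → MFlow s (Set.Ioo 1 (s - 1)) src dst) →
    ∀ (V E : Type) [Fintype V] [DecidableEq V] [Fintype E] (src dst : E → V),
      Bridgeless src dst → ¬ MFlow s (Set.Ioo 1 (s - 1)) src dst →
      ∃ W : Net, (0 : ℝ) ∈ W.cap s (Set.Ioo 1 (s - 1)) ∧ IsOpen (W.cap s (Set.Ioo 1 (s - 1))) ∧
        ∀ x ∈ W.cap s (Set.Icc 1 (s - 1)), ∃ y : ℝ, |y| < 1 ∧ (x : AddCircle s) = (y : AddCircle s)

/-- DESCENT (helper59). -/
def S_desc : Prop :=
  ∀ (P q : ℕ), 0 < q → 5 * q ≤ P →
    (∀ (V E : Type) [Fintype V] [DecidableEq V] [Fintype E] (src dst : E → V),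
      MFlow ((P : ℝ) / q) (Set.Icc 1 ((P : ℝ) / q - 1)) src dst →
      MFlow ((P : ℝ) / q) (Set.Ioo 1 ((P : ℝ) / q - 1)) src dst) →
    ∀ (V E : Type) [Fintype V] [DecidableEq V] [Fintype E] (src dst : E → V),
      Bridgeless src dst → MFlow ((P : ℝ) / q) (Set.Ioo 1 ((P : ℝ) / q - 1)) src dst

end H59.CF
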